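import Mathlib

set_option autoImplicit false

namespace Pool.Agent.Lib.MP_2ea626_lc

open Filter Set
open Cardinal hiding univ

/-- The family `A`, with the indices in `E` removed, is independent modulo the filter `F`. -/
def Ind {I : Type} (A : I → Set ℕ) (F : Filter ℕ) (E : Set I) : Prop :=
  ∀ (s : Finset I) (σ : I → Prop), (∀ i ∈ s, i ∉ E) → ∃ᶠ n in F, ∀ i ∈ s, (n ∈ A i ↔ σ i)

lemma Ind.mono {I : Type} {A : I → Set ℕ} {F : Filter ℕ} {E E' : Set I} (h : Ind A F E)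
    (hE : E ⊆ E') : Ind A F E' :=
  fun s σ hs => h s σ fun i hi hiE => hs i hi (hE hiE)

lemma Ind.add_comb {I : Type} {A : I → Set ℕ} {F : Filter ℕ} {E : Set I} (h : Ind A F E)
    (s : Finset I) (σ : I → Prop) (hs : ∀ i ∈ s, i ∉ E) :
    Ind A (F ⊓ 𝓟 {n | ∀ i ∈ s, (n ∈ A i ↔ σ i)}) (E ∪ ↑s) := by
  classical
  intro t τ ht
  rw [Filter.frequently_inf_principal]
  have h1 := h (s ∪ t) (fun i => if i ∈ s then σ i else τ i) (by
    intro i hi
    rcases Finset.mem_union.mp hi with hi | hi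
    · exact hs i hi
    · exact fun hiE => ht i hi (Or.inl hiE))
  refine h1.mono fun n hn => ⟨fun i hi => ?_, fun i hi => ?_⟩
  · have := hn i (Finset.mem_union_left _ hi)
    simpa [hi] using this
  · have h2 : i ∉ s := fun his => ht i hi (Or.inr his)
    have := hn i (Finset.mem_union_right _ hi)
    simpa [h2] using this

/-- Kunen's dichotomy. -/
lemma Ind.dichotomy {I : Type} {A : I → Set ℕ} {F : Filter ℕ} {E : Set I} (h : Ind A F E)
    (C : Set ℕ) :
    Ind A (F ⊓ 𝓟 C) E ∨ ∃ (t : Set ℕ) (e : Finset I), t ⊆ Cᶜ ∧ Ind A (F ⊓ 𝓟 t) (E ∪ ↑e) := by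
  by_cases h1 : Ind A (F ⊓ 𝓟 C) E
  · exact Or.inl h1
  right
  simp only [Ind, not_forall] at h1
  obtain ⟨s, σ, hs, hfreq⟩ := h1
  rw [Filter.frequently_inf_principal, Filter.not_frequently] at hfreq
  refine ⟨{n | ∀ i ∈ s, (n ∈ A i ↔ σ i)} ∩ Cᶜ, s, inter_subset_right, ?_⟩
  intro t τ ht
  have h2 := h.add_comb s σ hs t τ ht
  rw [Filter.frequently_inf_principal] at h2 ⊢
  refine (h2.and_eventually hfreq).mono fun n hn => ⟨⟨hn.1.1, fun hC => hn.2 ⟨hC, hn.1.1⟩⟩, hn.1.2⟩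

lemma Ind.add_pos {I : Type} {A : I → Set ℕ} {F : Filter ℕ} {E : Set I} (h : Ind A F E)
    (i : I) (hi : i ∉ E) : Ind A (F ⊓ 𝓟 (A i)) (E ∪ ↑({i} : Finset I)) := by
  have := h.add_comb {i} (fun _ => True) (by simpa using hi)
  simpa using this

lemma Ind.add_neg {I : Type} {A : I → Set ℕ} {F : Filter ℕ} {E : Set I} (h : Ind A F E)
    (i : I) (hi : i ∉ E) : Ind A (F ⊓ 𝓟 (A i)ᶜ) (E ∪ ↑({i} : Finset I)) := by
  have := h.add_comb {i} (fun _ => False) (by simpa using hi)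
  have h2 : {n | ∀ j ∈ ({i} : Finset I), (n ∈ A j ↔ False)} = (A i)ᶜ := by
    ext n
    simp
  rwa [h2] at this

/-- The pair of ultrafilters `U, V` defeats the relation `rel`. -/
def Kill (rel : Set ℕ → Set ℕ → Set ℕ → Prop) (U V : Ultrafilter ℕ) : Prop :=
  ∃ S : Set ℕ, ((∀ C₁ C₂, ¬ rel S C₁ C₂) ∧ S ∈ U ∧ S ∈ V) ∨
    ∃ C₁ C₂, rel S C₁ C₂ ∧ ¬ ((S ∈ U ∧ S ∈ V) ↔ (C₁ ∈ U ∨ C₂ ∈ V))

lemma step {I : Type} {A : I → Set ℕ} {F G : Filter ℕ} {E : Set I} (hF : Ind A F E)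
    (hG : Ind A G E) (i : I) (hi : i ∉ E) (rel : Set ℕ → Set ℕ → Set ℕ → Prop) :
    ∃ x : Set ℕ × Set ℕ × Finset I, Ind A (F ⊓ 𝓟 x.1) (E ∪ ↑x.2.2) ∧
      Ind A (G ⊓ 𝓟 x.2.1) (E ∪ ↑x.2.2) ∧
      ∀ U V : Ultrafilter ℕ, x.1 ∈ U → x.2.1 ∈ V → Kill rel U V := by
  classical
  by_cases hrel : ∀ C₁ C₂, ¬ rel (A i) C₁ C₂
  · exact ⟨(A i, A i, {i}), hF.add_pos i hi, hG.add_pos i hi,
      fun U V hU hV => ⟨A i, Or.inl ⟨hrel, hU, hV⟩⟩⟩
  push Not at hrel
  obtain ⟨C₁, C₂, hC⟩ := hrel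
  rcases (hG.add_pos i hi).dichotomy C₂ with h2 | ⟨t₂, e₂, ht₂, h2⟩
  · refine ⟨((A i)ᶜ, A i ∩ C₂, {i}), hF.add_neg i hi, ?_, fun U V hU hV => ?_⟩
    · simpa [inf_assoc, Filter.inf_principal] using h2
    · refine ⟨A i, Or.inr ⟨C₁, C₂, hC, fun h => ?_⟩⟩
      have h3 : C₂ ∈ V := Filter.mem_of_superset hV inter_subset_right
      exact (Ultrafilter.compl_mem_iff_notMem.mp hU) (h.mpr (Or.inr h3)).1
  rcases (hF.add_pos i hi).dichotomy C₁ with h1 | ⟨t₁, e₁, ht₁, h1⟩
  · refine ⟨(A i ∩ C₁, (A i)ᶜ, {i}), ?_, hG.add_neg i hi, fun U V hU hV => ?_⟩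
    · simpa [inf_assoc, Filter.inf_principal] using h1
    · refine ⟨A i, Or.inr ⟨C₁, C₂, hC, fun h => ?_⟩⟩
      have h3 : C₁ ∈ U := Filter.mem_of_superset hU inter_subset_right
      exact (Ultrafilter.compl_mem_iff_notMem.mp hV) (h.mpr (Or.inl h3)).2
  refine ⟨(A i ∩ t₁, A i ∩ t₂, {i} ∪ e₁ ∪ e₂), ?_, ?_, fun U V hU hV => ?_⟩
  · rw [inf_assoc, Filter.inf_principal] at h1
    refine h1.mono ?_
    intro j hj
    simp only [Finset.coe_union, mem_union] at hj ⊢
    tauto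
  · rw [inf_assoc, Filter.inf_principal] at h2
    refine h2.mono ?_
    intro j hj
    simp only [Finset.coe_union, mem_union] at hj ⊢
    tauto
  · refine ⟨A i, Or.inr ⟨C₁, C₂, hC, fun h => ?_⟩⟩
    have h3 := h.mp ⟨Filter.mem_of_superset hU inter_subset_left,
      Filter.mem_of_superset hV inter_subset_left⟩
    rcases h3 with h3 | h3
    · exact (Ultrafilter.compl_mem_iff_notMem.mp
        (Filter.mem_of_superset hU (inter_subset_right.trans ht₁))) h3
    · exact (Ultrafilter.compl_mem_iff_notMem.mp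
        (Filter.mem_of_superset hV (inter_subset_right.trans ht₂))) h3

/-- Transfinite dependent choice. -/
lemma exists_rec {K T : Type} [LinearOrder K] [WellFoundedLT K]
    (Q : ∀ d : K, (Iio d → T) → T → Prop) (ex : ∀ d φ, ∃ x, Q d φ x) :
    ∃ f : K → T, ∀ d, Q d (fun d' => f d') (f d) := by
  choose g hg using ex
  let f : K → T := (wellFounded_lt (α := K)).fix fun d F => g d fun d' => F d'.1 d'.2
  refine ⟨f, fun d => ?_⟩
  have : f d = g d fun d' => f d' := by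
    simp only [f]
    rw [WellFounded.fix_eq]
  rw [this]
  exact hg d _

/-- The filter generated by the cofinite sets and a family of sets. -/
def gen (S : Set (Set ℕ)) : Filter ℕ := cofinite ⊓ generate S

lemma frequently_gen {K : Type} [LinearOrder K] (a : K → Set ℕ) (D : Set K) (p : ℕ → Prop)
    (h0 : ∃ᶠ n in cofinite, p n) (h : ∀ d ∈ D, ∃ᶠ n in gen (a '' Iic d), p n) :
    ∃ᶠ n in gen (a '' D), p n := by
  intro hcon
  obtain ⟨t₁, ht₁, t₂, ht₂, heq⟩ := Filter.mem_inf_iff.mp hcon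
  obtain ⟨T, hTS, hTfin, hT⟩ := Filter.mem_generate_iff.mp ht₂
  obtain ⟨D₀, hD₀, hD₀fin, rfl⟩ : ∃ D₀ ⊆ D, D₀.Finite ∧ a '' D₀ = T := by
    obtain ⟨D₀, h1, h2, h3⟩ := (Set.exists_subset_image_finite_and (f := a) (s := D)
      (p := fun t => t = T)).mp ⟨T, hTS, hTfin, rfl⟩
    exact ⟨D₀, h1, h2, h3⟩
  rcases D₀.eq_empty_or_nonempty with rfl | hne
  · apply h0
    have : t₂ = univ := by
      simpa using hT
    change {n | ¬ p n} ∈ cofinite
    rw [heq, this, inter_univ]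
    exact ht₁
  · obtain ⟨d, hd, hmax⟩ := hD₀fin.exists_maximal hne
    apply h d (hD₀ hd)
    change {n | ¬ p n} ∈ gen (a '' Iic d)
    rw [heq]
    refine Filter.inter_mem_inf ht₁ (Filter.mem_generate_iff.mpr ⟨a '' D₀, ?_, hTfin, hT⟩)
    refine image_mono fun d' hd' => ?_
    by_contra hlt
    have hlt' : d < d' := not_le.mp hlt
    exact hlt (hmax hd' hlt'.le)

lemma gen_Iic {K : Type} [LinearOrder K] (a : K → Set ℕ) (d : K) :
    gen (a '' Iic d) = gen (a '' Iio d) ⊓ 𝓟 (a d) := by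
  rw [← Iio_union_right, image_union, image_singleton, gen, gen, Filter.generate_union,
    Filter.generate_singleton, inf_assoc]

/-- An independent family of size continuum. -/
lemma exists_indep : ∃ A : (ℕ → Bool) → Set ℕ, Ind A cofinite ∅ := by
  classical
  obtain ⟨e, he⟩ := exists_surjective_nat (ℕ × Finset (List Bool))
  let pre : ℕ → (ℕ → Bool) → List Bool := fun n x => List.ofFn fun i : Fin n => x i
  refine ⟨fun x => {k | pre (e k).1 x ∈ (e k).2}, fun s σ _ => ?_⟩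
  have hsep : ∀ᶠ n in atTop, ∀ x ∈ s, ∀ y ∈ s, pre n x = pre n y → x = y := by
    rw [Filter.eventually_all_finset]
    intro x _
    rw [Filter.eventually_all_finset]
    intro y _
    by_cases hxy : x = y
    · exact Filter.Eventually.of_forall fun n _ => hxy
    · obtain ⟨k, hk⟩ := Function.ne_iff.mp hxy
      filter_upwards [Filter.eventually_gt_atTop k] with n hn hpre
      have := congrFun (List.ofFn_injective hpre) ⟨k, hn⟩
      exact absurd this hk
  obtain ⟨N, hN⟩ := Filter.eventually_atTop.mp hsep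
  rw [Filter.frequently_cofinite_iff_infinite]
  let g : ℕ → ℕ × Finset (List Bool) := fun n => (n, (s.filter σ).image (pre n))
  have hginf : (g '' Ici N).Infinite :=
    (Set.Ici_infinite N).image (fun a _ b _ hab => congrArg Prod.fst hab)
  have hpre : (e ⁻¹' (g '' Ici N)).Infinite :=
    hginf.preimage (by rw [he.range_eq]; exact subset_univ _)
  refine hpre.mono ?_
  rintro k ⟨n, hn, hk⟩ x hx
  change pre (e k).1 x ∈ (e k).2 ↔ σ x
  rw [← hk]
  simp only [g, Finset.mem_image, Finset.mem_filter]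
  constructor
  · rintro ⟨y, ⟨hy, hσ⟩, hxy⟩
    rwa [← hN n hn y hy x hx hxy]
  · intro hσ
    exact ⟨x, ⟨hx, hσ⟩, rfl⟩

/-- Two free ultrafilters that defeat continuum many given relations. -/
theorem exists_ultrafilters {K₀ : Type} (hK : #K₀ ≤ continuum)
    (rel : K₀ → Set ℕ → Set ℕ → Set ℕ → Prop) :
    ∃ U V : Ultrafilter ℕ, (U : Filter ℕ) ≤ cofinite ∧ (V : Filter ℕ) ≤ cofinite ∧
      ∀ c, Kill (rel c) U V := by
  classical
  rcases isEmpty_or_nonempty K₀ with hemp | hne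
  · exact ⟨hyperfilter ℕ, hyperfilter ℕ, hyperfilter_le_cofinite, hyperfilter_le_cofinite,
      fun c => hemp.elim c⟩
  let K := (continuum.{0}).ord.ToType
  obtain ⟨π, hπ⟩ : ∃ π : K → K₀, Function.Surjective π := by
    have h1 : #K₀ ≤ #K := by rwa [mk_ord_toType]
    obtain ⟨j⟩ := (Cardinal.le_def _ _).mp h1
    exact ⟨Function.invFun j, Function.invFun_surjective j.injective⟩
  obtain ⟨A, hA⟩ := exists_indep
  let T := Set ℕ × Set ℕ × Finset (ℕ → Bool)
  let Q : ∀ d : K, (Iio d → T) → T → Prop := fun d φ x =>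
    Ind A (gen (range fun d' => (φ d').1)) (⋃ d', ↑(φ d').2.2) →
    Ind A (gen (range fun d' => (φ d').2.1)) (⋃ d', ↑(φ d').2.2) →
      Ind A (gen (range fun d' => (φ d').1) ⊓ 𝓟 x.1) ((⋃ d', ↑(φ d').2.2) ∪ ↑x.2.2) ∧
      Ind A (gen (range fun d' => (φ d').2.1) ⊓ 𝓟 x.2.1) ((⋃ d', ↑(φ d').2.2) ∪ ↑x.2.2) ∧
      ∀ U V : Ultrafilter ℕ, x.1 ∈ U → x.2.1 ∈ V → Kill (rel (π d)) U V
  have ex : ∀ d φ, ∃ x, Q d φ x := by
    intro d φ
    have hfresh : ∃ i : ℕ → Bool, i ∉ (⋃ d', ((φ d').2.2 : Set (ℕ → Bool))) := by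
      by_contra hcon
      push Not at hcon
      have h1 : (⋃ d', ((φ d').2.2 : Set (ℕ → Bool))) = univ := eq_univ_of_forall hcon
      have h2 : #(⋃ d', ((φ d').2.2 : Set (ℕ → Bool))) ≤ #(Iio d) * ℵ₀ := by
        refine (Cardinal.mk_iUnion_le _).trans ?_
        gcongr
        exact ciSup_le' fun d' => (Cardinal.finset_card_lt_aleph0 _).le
      have h3 : #(Iio d) * ℵ₀ < continuum :=
        Cardinal.mul_lt_of_lt aleph0_le_continuum (by
          simpa [K] using mk_Iio_lt d (by simp [K])) aleph0_lt_continuum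
      rw [h1, mk_univ] at h2
      have h4 : #(ℕ → Bool) = continuum := by simp
      exact absurd (h2.trans_lt h3) (by rw [h4]; exact lt_irrefl _)
    obtain ⟨i, hi⟩ := hfresh
    by_cases h : Ind A (gen (range fun d' => (φ d').1)) (⋃ d', ↑(φ d').2.2) ∧
        Ind A (gen (range fun d' => (φ d').2.1)) (⋃ d', ↑(φ d').2.2)
    · obtain ⟨x, hx⟩ := step h.1 h.2 i hi (rel (π d))
      exact ⟨x, fun _ _ => hx⟩
    · exact ⟨(∅, ∅, ∅), fun h1 h2 => absurd ⟨h1, h2⟩ h⟩
  obtain ⟨f, hf⟩ := exists_rec Q ex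
  let a : K → Set ℕ := fun d => (f d).1
  let b : K → Set ℕ := fun d => (f d).2.1
  let E : Set K → Set (ℕ → Bool) := fun D => ⋃ d ∈ D, ↑(f d).2.2
  have hlim : ∀ (u : K → Set ℕ) (D : Set K), (∀ d ∈ D, Iic d ⊆ D) →
      (∀ d ∈ D, Ind A (gen (u '' Iic d)) (E (Iic d))) → Ind A (gen (u '' D)) (E D) := by
    intro u D hD h s σ hs
    refine frequently_gen u D _ (hA s σ (by simp)) fun d hd => h d hd s σ fun i hi hiE => ?_
    exact hs i hi (biUnion_subset_biUnion_left (hD d hd) hiE)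
  have hE : ∀ d, E (Iic d) = E (Iio d) ∪ ↑(f d).2.2 := by
    intro d
    simp only [E]
    rw [← Iio_union_right, biUnion_union, biUnion_singleton]
  have main : ∀ d, (Ind A (gen (a '' Iic d)) (E (Iic d)) ∧ Ind A (gen (b '' Iic d)) (E (Iic d))) ∧
      ∀ U V : Ultrafilter ℕ, a d ∈ U → b d ∈ V → Kill (rel (π d)) U V := by
    intro d
    induction d using WellFoundedLT.induction with
    | ind d ih =>
      have h1 := hlim a (Iio d) (fun d' hd' => Iic_subset_Iio.mpr hd') fun d' hd' => (ih d' hd').1.1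
      have h2 := hlim b (Iio d) (fun d' hd' => Iic_subset_Iio.mpr hd') fun d' hd' => (ih d' hd').1.2
      have e1 : (range fun d' : Iio d => (f d').1) = a '' Iio d := (image_eq_range a _).symm
      have e2 : (range fun d' : Iio d => (f d').2.1) = b '' Iio d := (image_eq_range b _).symm
      have e3 : (⋃ d' : Iio d, ((f d').2.2 : Set (ℕ → Bool))) = E (Iio d) := by
        simp only [E]
        rw [biUnion_eq_iUnion]
      have h3 := hf d
      simp only [Q, e1, e2, e3] at h3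
      obtain ⟨h4, h5, h6⟩ := h3 h1 h2
      rw [gen_Iic, gen_Iic, hE]
      exact ⟨⟨h4, h5⟩, h6⟩
  have hne' : ∀ u : K → Set ℕ, Ind A (gen (u '' univ)) (E univ) → (gen (u '' univ)).NeBot := by
    intro u hu
    have := hu ∅ (fun _ => True) (by simp)
    simpa using this
  have hFa := hne' a (hlim a univ (fun _ _ => subset_univ _) fun d _ => (main d).1.1)
  have hFb := hne' b (hlim b univ (fun _ _ => subset_univ _) fun d _ => (main d).1.2)
  obtain ⟨U, hU⟩ := Filter.exists_ultrafilter_le (gen (a '' univ))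
  obtain ⟨V, hV⟩ := Filter.exists_ultrafilter_le (gen (b '' univ))
  refine ⟨U, V, hU.trans inf_le_left, hV.trans inf_le_left, fun c => ?_⟩
  obtain ⟨d, rfl⟩ := hπ c
  refine (main d).2 U V (hU ?_) (hV ?_)
  · exact Filter.mem_inf_of_right (Filter.mem_generate_of_mem ⟨d, mem_univ _, rfl⟩)
  · exact Filter.mem_inf_of_right (Filter.mem_generate_of_mem ⟨d, mem_univ _, rfl⟩)

section code

open TopologicalSpace

variable (P Q : Type) [TopologicalSpace P] [TopologicalSpace Q]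
  [SecondCountableTopology P] [SecondCountableTopology Q]

/-- Codes for homeomorphisms between subspaces of second countable spaces. -/
abbrev Code : Type :=
  Set (countableBasis P × countableBasis Q) × Set (countableBasis P × countableBasis Q)

lemma mk_code_le : #(Code P Q) ≤ continuum := by
  have h1 : #(Set (countableBasis P × countableBasis Q)) ≤ continuum := by
    rw [mk_set, ← two_power_aleph0]
    have : Countable (countableBasis P) := (countable_countableBasis P).to_subtype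
    have : Countable (countableBasis Q) := (countable_countableBasis Q).to_subtype
    exact Cardinal.power_le_power_left two_ne_zero mk_le_aleph0
  rw [mk_prod, lift_id]
  calc _ ≤ continuum * continuum := mul_le_mul' h1 h1
    _ = continuum := continuum_mul_self

variable {P Q}

/-- The relation coded by a code. -/
def coded (c : Code P Q) (y : P) (z : Q) : Prop :=
  (∀ t : countableBasis Q, z ∈ t.1 → ∃ s : countableBasis P, y ∈ s.1 ∧ (s, t) ∈ c.1) ∧
  (∀ s : countableBasis P, y ∈ s.1 → ∃ t : countableBasis Q, z ∈ t.1 ∧ (s, t) ∈ c.2)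

lemma exists_code [T1Space P] [T1Space Q] (Y : Set P) (X : Set Q) (h : Y ≃ₜ X) :
    ∃ c : Code P Q, (∀ y ∈ Y, ∃ z, coded c y z) ∧ ∀ y z, coded c y z → (y ∈ Y ↔ z ∈ X) := by
  refine ⟨({st | ∀ y : Y, y.1 ∈ st.1.1 → (h y).1 ∈ st.2.1},
    {st | ∀ z : X, z.1 ∈ st.2.1 → (h.symm z).1 ∈ st.1.1}), fun y hy => ⟨h ⟨y, hy⟩, ?_, ?_⟩,
    fun y z hc => ⟨fun hy => ?_, fun hz => ?_⟩⟩
  · intro t ht
    have ho : IsOpen ((fun y : Y => (h y).1) ⁻¹' t.1) :=
      (isOpen_of_mem_countableBasis t.2).preimage (by fun_prop)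
    obtain ⟨W, hW, hWeq⟩ := isOpen_induced_iff.mp ho
    have hyW : y ∈ W := by
      have : (⟨y, hy⟩ : Y) ∈ Subtype.val ⁻¹' W := by rw [hWeq]; exact ht
      exact this
    obtain ⟨s, hs, hys, hsW⟩ := (isBasis_countableBasis P).exists_subset_of_mem_open hyW hW
    refine ⟨⟨s, hs⟩, hys, fun y' hy' => ?_⟩
    have : y' ∈ Subtype.val ⁻¹' W := hsW hy'
    rw [hWeq] at this
    exact this
  · intro s hs
    have ho : IsOpen ((fun z : X => (h.symm z).1) ⁻¹' s.1) :=
      (isOpen_of_mem_countableBasis s.2).preimage (by fun_prop)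
    obtain ⟨W, hW, hWeq⟩ := isOpen_induced_iff.mp ho
    have hzW : (h ⟨y, hy⟩).1 ∈ W := by
      have : h ⟨y, hy⟩ ∈ Subtype.val ⁻¹' W := by
        rw [hWeq]
        simpa using hs
      exact this
    obtain ⟨t, ht, hzt, htW⟩ := (isBasis_countableBasis Q).exists_subset_of_mem_open hzW hW
    refine ⟨⟨t, ht⟩, hzt, fun z' hz' => ?_⟩
    have : z' ∈ Subtype.val ⁻¹' W := htW hz'
    rw [hWeq] at this
    exact this
  · by_contra hz
    have hne : z ∈ ({(h ⟨y, hy⟩).1}ᶜ : Set Q) := fun heq => hz (by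
      rw [mem_singleton_iff.mp heq]
      exact (h ⟨y, hy⟩).2)
    obtain ⟨t, ht, hzt, hsub⟩ := (isBasis_countableBasis Q).exists_subset_of_mem_open hne
      isOpen_compl_singleton
    obtain ⟨s, hys, hst⟩ := hc.1 ⟨t, ht⟩ hzt
    exact hsub (hst ⟨y, hy⟩ hys) rfl
  · by_contra hy
    have hne : y ∈ ({(h.symm ⟨z, hz⟩).1}ᶜ : Set P) := fun heq => hy (by
      rw [mem_singleton_iff.mp heq]
      exact (h.symm ⟨z, hz⟩).2)
    obtain ⟨s, hs, hys, hsub⟩ := (isBasis_countableBasis P).exists_subset_of_mem_open hne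
      isOpen_compl_singleton
    obtain ⟨t, hzt, hst⟩ := hc.2 ⟨s, hs⟩ hys
    exact hsub (hst ⟨z, hz⟩ hzt) rfl

end code

end Pool.Agent.Lib.MP_2ea626_lc
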