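import Mathlib
import Pool.Agent.Lib.MP_2ea626_lc.Core

set_option autoImplicit false

namespace Pool.Agent.Lib.MP_2ea626_lc.Ambient

open Filter Set Pool.Agent.Lib.MP_2ea626_lc

/-- The subset of `ℕ` whose characteristic function is `x`. -/
def toSet (x : ℕ → Bool) : Set ℕ := {n | x n = true}

/-- A filter on `ℕ` as a subset of the Cantor space `ℕ → Bool`. -/
def filterSet (F : Filter ℕ) : Set (ℕ → Bool) := {x | toSet x ∈ F}

/-- The coideal of a filter on `ℕ`, as a subset of the Cantor space `ℕ → Bool`. -/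
def coideal (F : Filter ℕ) : Set (ℕ → Bool) := {x | ∀ S ∈ F, (toSet x ∩ S).Nonempty}

/-- The sum of two ultrafilters, on the even and on the odd numbers. -/
def sumFilter (U V : Ultrafilter ℕ) : Filter ℕ :=
  Filter.map (fun n => 2 * n) U ⊔ Filter.map (fun n => 2 * n + 1) V

lemma mem_filterSet (U V : Ultrafilter ℕ) (x : ℕ → Bool) :
    x ∈ filterSet (sumFilter U V) ↔
      {n | x (2 * n) = true} ∈ U ∧ {n | x (2 * n + 1) = true} ∈ V := by
  simp only [filterSet, sumFilter, mem_ofPred_eq, Filter.mem_sup, Filter.mem_map]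
  rfl

lemma mem_coideal (U V : Ultrafilter ℕ) (x : ℕ → Bool) :
    x ∈ coideal (sumFilter U V) ↔
      {n | x (2 * n) = true} ∈ U ∨ {n | x (2 * n + 1) = true} ∈ V := by
  constructor
  · intro h
    by_contra hcon
    push Not at hcon
    have h1 : (toSet x)ᶜ ∈ sumFilter U V :=
      Filter.mem_sup.mpr ⟨Filter.mem_map.mpr (Ultrafilter.compl_mem_iff_notMem.mpr hcon.1),
        Filter.mem_map.mpr (Ultrafilter.compl_mem_iff_notMem.mpr hcon.2)⟩
    simpa using h _ h1
  · rintro (h | h) S hS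
    · obtain ⟨n, hn1, hn2⟩ := Ultrafilter.nonempty_of_mem
        (Filter.inter_mem h (Filter.mem_map.mp (Filter.mem_sup.mp hS).1))
      exact ⟨2 * n, hn1, hn2⟩
    · obtain ⟨n, hn1, hn2⟩ := Ultrafilter.nonempty_of_mem
        (Filter.inter_mem h (Filter.mem_map.mp (Filter.mem_sup.mp hS).2))
      exact ⟨2 * n + 1, hn1, hn2⟩

/-- Flipping the coordinates marked by `τ`. -/
def flipBy (τ : ℕ → Bool) : (ℕ → Bool) ≃ₜ (ℕ → Bool) where
  toFun x n := xor (τ n) (x n)
  invFun x n := xor (τ n) (x n)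
  left_inv x := by
    funext n
    simp
  right_inv x := by
    funext n
    simp
  continuous_toFun := continuous_pi fun n =>
    (continuous_of_discreteTopology (f := fun b : Bool => xor (τ n) b)).comp (continuous_apply n)
  continuous_invFun := continuous_pi fun n =>
    (continuous_of_discreteTopology (f := fun b : Bool => xor (τ n) b)).comp (continuous_apply n)

lemma flip_mem (U : Ultrafilter ℕ) (y : ℕ → Bool) :
    ∃ b : Bool, {n | xor b (y n) = true} ∈ U := by
  by_cases h : {n | y n = true} ∈ U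
  · exact ⟨false, by simpa using h⟩
  · refine ⟨true, ?_⟩
    have := Ultrafilter.compl_mem_iff_notMem.mpr h
    convert this using 1
    ext n
    simp

lemma not_meagre (U V : Ultrafilter ℕ) : ¬ IsMeagre (filterSet (sumFilter U V)) := by
  intro h
  let τ : Bool × Bool → ℕ → Bool := fun b n => if n % 2 = 0 then b.1 else b.2
  have h1 : IsMeagre (⋃ b : Bool × Bool, flipBy (τ b) ⁻¹' filterSet (sumFilter U V)) :=
    isMeagre_iUnion fun b =>
      h.preimage_of_isOpenMap (flipBy (τ b)).continuous (flipBy (τ b)).isOpenMap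
  refine not_isMeagre_of_isOpen isOpen_univ univ_nonempty (h1.mono fun x _ => ?_)
  obtain ⟨b₁, hb₁⟩ := flip_mem U fun n => x (2 * n)
  obtain ⟨b₂, hb₂⟩ := flip_mem V fun n => x (2 * n + 1)
  refine mem_iUnion.mpr ⟨(b₁, b₂), (mem_filterSet U V _).mpr ⟨?_, ?_⟩⟩
  · convert hb₁ using 3 with n
    simp [flipBy, τ]
  · convert hb₂ using 3 with n
    simp [flipBy, τ, Nat.add_mod]

open Classical in
/-- The test points. -/
noncomputable def testPt (S : Set ℕ) : (ℕ → Bool) × (ℕ → Bool) :=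
  (fun n => decide (n % 2 = 0 ∧ n / 2 ∈ S), fun n => decide (n % 2 = 1 ∧ n / 2 ∈ S))

lemma testPt_mem (U V : Ultrafilter ℕ) (S : Set ℕ) :
    testPt S ∈ coideal (sumFilter U V) ×ˢ coideal (sumFilter U V) ↔ S ∈ U ∧ S ∈ V := by
  have e1 : ∀ n : ℕ, (2 * n + 1) % 2 = 1 := fun n => by omega
  have e2 : ∀ n : ℕ, (2 * n + 1) / 2 = n := fun n => by omega
  simp [mem_coideal, testPt, e1, e2]

theorem coidealSquare : ∃ F : Filter ℕ, F.NeBot ∧ F ≤ cofinite ∧ ¬ IsMeagre (filterSet F) ∧
    IsEmpty (↥(coideal F) ≃ₜ ↥(coideal F) × ↥(coideal F)) := by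
  obtain ⟨U, V, hU, hV, hkill⟩ := exists_ultrafilters
    (mk_code_le ((ℕ → Bool) × (ℕ → Bool)) (ℕ → Bool))
    (fun c S C₁ C₂ => ∃ z, coded c (testPt S) z ∧ C₁ = {n | z (2 * n) = true} ∧
      C₂ = {n | z (2 * n + 1) = true})
  refine ⟨sumFilter U V, ?_, ?_, not_meagre U V, ⟨fun h => ?_⟩⟩
  · exact Filter.NeBot.mono (f := Filter.map (fun n => 2 * n) (U : Filter ℕ)) inferInstance
      le_sup_left
  · refine sup_le ?_ ?_
    · exact (Filter.map_mono hU).trans
        (Function.Injective.tendsto_cofinite fun a b hab => by simpa using hab)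
    · exact (Filter.map_mono hV).trans
        (Function.Injective.tendsto_cofinite fun a b hab => by simpa using hab)
  · obtain ⟨c, hc1, hc2⟩ := exists_code (coideal (sumFilter U V) ×ˢ coideal (sumFilter U V))
      (coideal (sumFilter U V)) ((Homeomorph.Set.prod _ _).trans h.symm)
    obtain ⟨S, ⟨hno, hSU, hSV⟩ | ⟨C₁, C₂, ⟨z, hz, rfl, rfl⟩, hne⟩⟩ := hkill c
    · obtain ⟨z, hz⟩ := hc1 _ ((testPt_mem U V S).mpr ⟨hSU, hSV⟩)
      exact hno _ _ ⟨z, hz, rfl, rfl⟩
    · apply hne
      rw [← testPt_mem, ← mem_coideal]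
      exact hc2 _ _ hz

end Pool.Agent.Lib.MP_2ea626_lc.Ambient
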