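import Mathlib
import Pool.Agent.Lib.Common.ZfcProv.Sem

/-!
Finite sets, the Baire category theorem and an independent family in a model of ZFC.
-/

set_option autoImplicit false
set_option linter.unusedSectionVars false
set_option linter.unusedVariables false
set_option synthInstance.maxSize 100000

namespace Pool.Agent.Lib.MP_60e7f9_lc.Prov

open Pool.Agent.Lib.Common.Forcing

variable {M : Type} [Mod M] {α : Type} [Env M α]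

/-- Finite sets. -/
def Fi (s : M) : Prop := ∃ m ∈ om M, Le s m

instance (s : α → M) [Tm s] : Df M fun a => Fi (s a) := by
  unfold Fi; infer_instance

theorem fi_om {n : M} (h : n ∈ om M) : Fi n := ⟨n, h, le_rfl'⟩

theorem Fi.of_le {a b : M} (h : Fi b) (h' : Le a b) : Fi a := h.imp fun _ e => ⟨e.1, h'.trans e.2⟩

theorem Fi.union {a b : M} (h : Fi a) (h' : Fi b) : Fi (a ∪ b) :=
  h'.elim fun m e => fin_union h m e.1 b e.2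

theorem Fi.pr {a b : M} (h : Fi a) (h' : Fi b) : Fi (pr a b) := by
  obtain ⟨m, a1, a2⟩ := h
  obtain ⟨n, b1, b2⟩ := h'
  exact Fi.of_le (fin_pr b1 m a1) (a2.pr b2)

theorem fi_up (i : M) : Fi (up i i) :=
  ⟨_, sc_om emp_om, (le_of_sub fun z hz => m_union.2 (.inr hz)).trans
    (le_insert i (le_rfl' (A := ∅)))⟩

theorem Fi.le_om {a : M} (h : Fi a) : Le a (om M) :=
  h.elim fun _ e => e.2.trans (le_of_sub (od_om.sub e.1))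

theorem not_fi_om : ¬ Fi (om M) := fun ⟨m, a, b⟩ => crd_om.2 m a b

theorem Fi.bdd {s : M} (h : Fi s) (hs : s ⊆ om M) : ∃ N ∈ om M, s ⊆ N := by
  obtain ⟨m, h1, h2⟩ := h
  refine om_ind (fun m => ∀ s, s ⊆ om M → Le s m → ∃ N ∈ om M, s ⊆ N)
    (fun s _ ⟨f, f1, _⟩ => ⟨∅, emp_om, fun z hz => absurd (f1 z hz) (m_emp _)⟩)
    (fun m _ ih s hs ⟨f, f1, f2⟩ => ?_) m h1 s hs h2
  obtain ⟨s', e⟩ := sep s fun y => ap f y ∈ m
  obtain ⟨N, a1, a2⟩ := ih s' (fun z hz => hs z ((e z).1 hz).1) ⟨f, fun x hx => ((e x).1 hx).2,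
    fun x hx y hy => f2 x ((e x).1 hx).1 y ((e y).1 hy).1⟩
  by_cases hx : ∃ x ∈ s, ap f x = m
  · obtain ⟨x, b1, b2⟩ := hx
    refine ⟨_, od_om.union_mem a1 (sc_om (hs x b1)), fun z hz => m_union.2 ?_⟩
    exact (m_sc.1 (f1 z hz)).imp (fun h => a2 z ((e z).2 ⟨hz, h⟩))
      fun h => m_sc.2 (.inr (f2 z hz x b1 (h.trans b2.symm)))
  · exact ⟨N, a1, fun z hz => a2 z ((e z).2 ⟨hz,
      (m_sc.1 (f1 z hz)).resolve_right fun h => hx ⟨z, hz, h⟩⟩)⟩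

theorem Le.pw {A B : M} (h : Le A B) : Le (pw A) (pw B) := by
  obtain ⟨f, f1, f2⟩ := h
  have : ∀ x ∈ Prov.pw A, ∀ y ∈ Prov.pw A, im f x = im f y → x ⊆ y := fun x hx y hy e z hz => by
    obtain ⟨u, h1, h2⟩ := m_im.1 (e ▸ m_im.2 ⟨z, hz, rfl⟩)
    exact f2 z (m_pw.1 hx z hz) u (m_pw.1 hy u h1) h2 ▸ h1
  refine le_tm (fun x => im f x) (fun x hx => m_pw.2 fun y hy => ?_)
    fun x hx y hy e => ext (this x hx y hy e) (this y hy x hx e.symm)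
  obtain ⟨z, hz, rfl⟩ := m_im.1 hy
  exact f1 z (m_pw.1 hx z hz)

theorem Fi.pw {a : M} (h : Fi a) : Fi (pw a) := by
  obtain ⟨m, h1, h2⟩ := h
  refine Fi.of_le (om_ind (fun m => Fi (Prov.pw m)) ?_ (fun n _ ih => ?_) m h1) h2.pw
  · exact (fi_up ∅).of_le (le_of_sub fun z hz => by
      simpa using s_emp.1 fun k hk => m_emp k (m_pw.1 hz k hk))
  · obtain ⟨S, hS⟩ := repl (Prov.pw n) fun z => z ∪ up n n
    refine (ih.union (ih.of_le (le_surj (fun z => z ∪ up n n) fun y hy => (hS y).1 hy))).of_le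
      (le_of_sub fun z hz => m_union.2 ?_)
    have hz' := m_pw.1 hz
    by_cases hn : n ∈ z
    · refine .inr ((hS z).2 ⟨z ∩ n, m_pw.2 fun k hk => (m_inter.1 hk).2, ext' fun k => ?_⟩)
      have := hz' k
      simp only [m_union, m_inter, m_up, m_sc, or_self] at this ⊢
      exact ⟨fun h => (this h).imp (⟨h, ·⟩) id, fun h => h.elim (·.1) (· ▸ hn)⟩
    · exact .inl (m_pw.2 fun k hk => (m_sc.1 (hz' k hk)).resolve_right fun e => hn (e ▸ hk))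

theorem exists_ctble (t : M → M) [ht : Tm fun z : Unit × M => t z.2] (h : ∀ n ∈ om M, Fi (t n)) :
    ∃ H : M, Le H (om M) ∧ ∀ n ∈ om M, t n ⊆ H := by
  obtain ⟨S, hS⟩ := repl (om M) t
  refine ⟨sU S, sU_le od_om sub_rfl (le_surj t fun y hy => (hS y).1 hy) fun x hx => ?_,
    fun n hn z hz => m_sU.2 ⟨_, (hS _).2 ⟨n, hn, rfl⟩, hz⟩⟩
  obtain ⟨n, hn, rfl⟩ := (hS x).1 hx
  exact (h n hn).le_om

/-- Independence of the family `A`, off the index set `E`, modulo `F` and the set `t`. -/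
def Ind (A F t E : M) : Prop := ∀ s σ : M, Fi s → s ⊆ pw (om M) → (∀ i ∈ s, i ∉ E) →
  ∀ X ∈ F, ∃ n ∈ X, n ∈ t ∧ ∀ i ∈ s, (n ∈ ap A i ↔ i ∈ σ)

instance (A : M) (s t u : α → M) [Tm s] [Tm t] [Tm u] :
    Df M fun a => Ind A (s a) (t a) (u a) := by
  unfold Ind; infer_instance

theorem exists_indep : ∃ A B : M, (∀ i ∈ pw (om M), ap A i ⊆ om M) ∧
    (∀ X, X ∈ B ↔ ∃ n ∈ om M, X = om M \ n) ∧ Ind A B (om M) ∅ := by
  obtain ⟨J, ⟨j, j1, j2⟩, hJ⟩ := exists_ctble (M := M) (fun n => pr (up n n) (pw (pw n)))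
    fun n hn => (fi_up n).pr (fi_om hn).pw.pw
  obtain ⟨A, -, hA⟩ := ch (pw (om M)) (fun x a => ∀ k, k ∈ a ↔ ∃ p ∈ J, k = ap j p ∧
      x ∩ p1 p ∈ p2 p) fun x _ => by
    obtain ⟨a, ha⟩ := sep (om M) fun k => ∃ p ∈ J, k = ap j p ∧ x ∩ p1 p ∈ p2 p
    exact ⟨a, fun k => (ha k).trans ⟨fun h => h.2, fun ⟨p, a1, a2, a3⟩ =>
      ⟨a2 ▸ j1 p a1, p, a1, a2, a3⟩⟩⟩
  obtain ⟨B, hB⟩ := repl (om M) fun n => om M \ n
  refine ⟨A, B, fun i hi k hk => ?_, hB, fun s σ h1 h2 _ X hX => ?_⟩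
  · obtain ⟨p, a1, rfl, -⟩ := (hA i hi k).1 hk
    exact j1 p a1
  obtain ⟨m, hm, rfl⟩ := (hB X).1 hX
  obtain ⟨f, -, hf⟩ := ch (pr s s) (fun p k => k ∈ om M ∧
      ((k ∈ p1 p ↔ k ∈ p2 p) → p1 p = p2 p)) fun p hp => by
    obtain ⟨x, hx, y, hy, rfl⟩ := m_pr.1 hp
    rw [p1_op, p2_op]
    by_contra hc
    refine hc ⟨∅, emp_om, fun _ => ext' fun k => by_contra fun e => hc ⟨k, ?_, (absurd · e)⟩⟩
    by_contra hk
    exact e (iff_of_false (fun h => hk (m_pw.1 (h2 x hx) k h)) fun h => hk (m_pw.1 (h2 y hy) k h))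
  obtain ⟨N, n1, n2⟩ := ((h1.pr h1).of_le (le_im f _)).bdd fun k hk => by
    obtain ⟨p, hp, rfl⟩ := m_im.1 hk
    exact (hf p hp).1
  have hT : ∀ n ∈ om M \ N, ∃ T, op n T ∈ J ∧ ∀ i ∈ s, (ap j (op n T) ∈ ap A i ↔ i ∈ σ) := by
    intro n hn
    obtain ⟨T, hT⟩ := repl (s ∩ σ) fun x => x ∩ n
    have hn' := m_diff.1 hn
    have hp : op n T ∈ J := hJ n hn'.1 _ (op_pr.2 ⟨by simp, m_pw.2 fun u hu => by
      obtain ⟨x, -, rfl⟩ := (hT u).1 hu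
      exact m_pw.2 fun k hk => (m_inter.1 hk).2⟩)
    refine ⟨T, hp, fun i hi => (hA i (h2 i hi) _).trans ⟨fun ⟨p, a1, a2, a3⟩ => ?_, fun h =>
      ⟨_, hp, rfl, by rw [p1_op, p2_op]; exact (hT _).2 ⟨i, m_inter.2 ⟨hi, h⟩, rfl⟩⟩⟩⟩
    rw [← j2 _ hp p a1 a2, p1_op, p2_op] at a3
    obtain ⟨x, hx, e⟩ := (hT _).1 a3
    have hq := op_pr.2 ⟨hi, (m_inter.1 hx).1⟩
    have hk : ap f (op i x) ∈ n := (om_tri hn'.1 N n1).resolve_left hn'.2 _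
      (n2 _ (m_im.2 ⟨_, hq, rfl⟩))
    have := (hf _ hq).2
    rw [p1_op, p2_op] at this
    have e' : ap f (op i x) ∈ i ∩ n ↔ ap f (op i x) ∈ x ∩ n := by rw [e]
    rw [this (by simpa [hk] using e')]
    exact (m_inter.1 hx).2
  by_contra hc
  refine not_fi_om ((((fi_om hm).of_le (le_rel (A := om M \ N) (fun n k => ∃ T, op n T ∈ J ∧
    k = ap j (op n T)) (fun n hn => ?_) ?_)).union (fi_om n1)).of_le (le_of_sub fun k hk => ?_))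
  · obtain ⟨T, a1, a2⟩ := hT n hn
    refine ⟨_, by_contra fun h => hc ⟨_, m_diff.2 ⟨j1 _ a1, h⟩, j1 _ a1, a2⟩, T, a1, rfl⟩
  · rintro n - n' - _ ⟨T, a1, rfl⟩ ⟨T', a2, e⟩
    exact (op_inj (j2 _ a1 _ a2 e)).1
  · by_cases h : k ∈ N <;> simp [h, hk]

/-- Nowhere dense classes. -/
def Nwd (p : M → Prop) : Prop := ∀ x, x ⊆ om M → ∀ n ∈ om M, ∃ y, y ⊆ om M ∧ ∃ m ∈ om M,
  (∀ k ∈ n, (k ∈ x ↔ k ∈ y)) ∧ n ⊆ m ∧ ∀ z, p z → ¬ ∀ k ∈ m, (k ∈ z ↔ k ∈ y)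

theorem Nwd.or {p q : M → Prop} (hp : Nwd p) (hq : Nwd q) : Nwd fun z => p z ∨ q z := by
  intro x hx n hn
  obtain ⟨y, a1, m, a2, a3, a4, a5⟩ := hp x hx n hn
  obtain ⟨y', b1, m', b2, b3, b4, b5⟩ := hq y a1 m a2
  refine ⟨y', b1, m', b2, fun k hk => (a3 k hk).trans (b3 k (a4 k hk)), sub_trans a4 b4,
    fun z hz => hz.elim (fun h e => a5 z h fun k hk => ?_) (b5 z)⟩
  exact (e k (b4 k hk)).trans (b3 k hk).symm

theorem Nwd.flip {p : M → Prop} (hp : Nwd p) {τ : M} (hτ : τ ⊆ om M) :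
    Nwd fun z => p (z \ τ ∪ τ \ z) := by
  intro x hx n hn
  have s : ∀ x : M, x ⊆ om M → x \ τ ∪ τ \ x ⊆ om M := fun x hx k hk =>
    (m_union.1 hk).elim (fun h => hx k (m_diff.1 h).1) fun h => hτ k (m_diff.1 h).1
  obtain ⟨y, a1, m, a2, a3, a4, a5⟩ := hp _ (s x hx) n hn
  refine ⟨_, s y a1, m, a2, fun k hk => ?_, a4, fun z hz e => a5 _ hz fun k hk => ?_⟩
  · have := a3 k hk
    simp only [m_union, m_diff] at this ⊢
    tauto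
  · have := e k hk
    simp only [m_union, m_diff] at this ⊢
    tauto

theorem baire (r : M → M → Prop) [hr : Df M fun z : (Unit × M) × M => r z.1.2 z.2]
    (h : ∀ n ∈ om M, Nwd (r n)) : ∃ x, x ⊆ om M ∧ ∀ n ∈ om M, ¬ r n x := by
  have i1 := @dfR2 M _ r hr
  obtain ⟨g, -, hg⟩ := ch (pr (om M) (pr (om M) (pw (om M)))) (fun p q =>
      q ∈ pr (om M) (pw (om M)) ∧ (∀ k ∈ p1 (p2 p), (k ∈ p2 (p2 p) ↔ k ∈ p2 q)) ∧
        p1 (p2 p) ⊆ p1 q ∧ ∀ z, r (p1 p) z → ¬ ∀ k ∈ p1 q, (k ∈ z ↔ k ∈ p2 q)) fun p hp => by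
    obtain ⟨n, hn, _, hq, rfl⟩ := m_pr.1 hp
    obtain ⟨l, hl, x, hx, rfl⟩ := m_pr.1 hq
    obtain ⟨y, a1, m, a2, a3⟩ := h n hn x (m_pw.1 hx) l hl
    exact ⟨op m y, op_pr.2 ⟨a2, m_pw.2 a1⟩, by simpa only [p1_op, p2_op] using a3⟩
  obtain ⟨s, -, s0, s1⟩ := rec_om (op ∅ ∅ : M) fun n q => ap g (op n q)
  have s2 : ∀ n ∈ om M, ap s n ∈ pr (om M) (pw (om M)) :=
    om_ind _ (s0.symm ▸ op_pr.2 ⟨emp_om, m_pw.2 (emp_sub _)⟩) fun n hn ih =>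
      (s1 n hn).symm ▸ (hg _ (op_pr.2 ⟨hn, ih⟩)).1
  have s3 := fun n (hn : n ∈ om M) => (hg _ (op_pr.2 ⟨hn, s2 n hn⟩)).2
  simp only [p1_op, p2_op] at s3
  have s4 : ∀ n ∈ om M, ∀ m ∈ n, ∀ k ∈ p1 (ap s m), k ∈ p1 (ap s n) ∧
      (k ∈ p2 (ap s m) ↔ k ∈ p2 (ap s n)) :=
    om_ind _ (by simp) fun n hn ih m hm k hk => by
      rw [s1 n hn]
      rcases m_sc.1 hm with hm | rfl
      · exact ⟨(s3 n hn).2.1 k (ih m hm k hk).1, (ih m hm k hk).2.trans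
          ((s3 n hn).1 k (ih m hm k hk).1)⟩
      · exact ⟨(s3 m hn).2.1 k hk, (s3 m hn).1 k hk⟩
  obtain ⟨x, hx⟩ := sep (om M) fun k => ∃ n ∈ om M, k ∈ p1 (ap s n) ∧ k ∈ p2 (ap s n)
  refine ⟨x, fun k hk => ((hx k).1 hk).1, fun n hn h' => (s3 n hn).2.2 x h' fun k hk => ?_⟩
  rw [← s1 n hn] at hk ⊢
  have hn' := sc_om hn
  refine (hx k).trans ⟨fun ⟨_, m, a1, a2, a3⟩ => ?_, fun h => ⟨?_, _, hn', hk, h⟩⟩
  · rcases od_tri m (od_om.mem a1) _ (od_om.mem hn') with e | rfl | e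
    exacts [(s4 _ hn' m e k a2).2.1 a3, a3, (s4 m a1 _ e k hk).2.2 a3]
  · obtain ⟨l, hl, y, hy, e⟩ := m_pr.1 (s2 _ hn')
    rw [e, p1_op] at hk
    exact od_om.tr hk hl

end Pool.Agent.Lib.MP_60e7f9_lc.Prov
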