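import Mathlib
import Pool.Agent.Lib.MP_2ea626_lc.ProvA

/-!
Kunen's recursion for two ultrafilters in a model of ZFC.
-/

set_option autoImplicit false
set_option linter.unusedSectionVars false
set_option linter.unusedVariables false
set_option synthInstance.maxSize 100000

namespace Pool.Agent.Lib.MP_60e7f9_lc.Prov

open Pool.Agent.Lib.Common.Forcing

variable {M : Type} [Mod M] {α : Type} [Env M α]

/-- Closed under intersections. -/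
def Cl (F : M) : Prop := ∀ X ∈ F, ∀ Y ∈ F, X ∩ Y ∈ F

theorem Ind.mono {A F t E E' : M} (h : Ind A F t E) (e : E ⊆ E') : Ind A F t E' :=
  fun s σ a b c => h s σ a b fun i hi h' => c i hi (e i h')

theorem Ind.comb {A F t E : M} (h : Ind A F t E) {s : M} (σ : M) (h1 : Fi s)
    (h2 : s ⊆ pw (om M)) (h3 : ∀ i ∈ s, i ∉ E) {s' : M} (σ' : M) (h1' : Fi s')
    (h2' : s' ⊆ pw (om M)) (h3' : ∀ i ∈ s', i ∉ E ∪ s) {X : M} (hX : X ∈ F) :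
    ∃ n ∈ X, n ∈ t ∧ (∀ i ∈ s, (n ∈ ap A i ↔ i ∈ σ)) ∧ ∀ i ∈ s', (n ∈ ap A i ↔ i ∈ σ') := by
  obtain ⟨n, a1, a2, a3⟩ := h (s ∪ s') (σ ∩ s ∪ σ' \ s) (h1.union h1')
    (fun i hi => (m_union.1 hi).elim (h2 i) (h2' i))
    (fun i hi => (m_union.1 hi).elim (h3 i) fun h e => h3' i h (m_union.2 (.inl e))) X hX
  refine ⟨n, a1, a2, fun i hi => (a3 i (m_union.2 (.inl hi))).trans (by simp [hi]),
    fun i hi => (a3 i (m_union.2 (.inr hi))).trans ?_⟩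
  have : i ∉ s := fun e => h3' i hi (m_union.2 (.inr e))
  simp [this]

theorem Ind.pos {A F t E i : M} (h : Ind A F t E) (hi : i ∈ pw (om M)) (hE : i ∉ E) :
    Ind A F (t ∩ ap A i) (E ∪ up i i) ∧ Ind A F (t \ ap A i) (E ∪ up i i) := by
  have h2 : up i i ⊆ pw (om M) := fun z hz => ((m_up.1 hz).elim id id) ▸ hi
  have h3 : ∀ z ∈ up i i, z ∉ E := fun z hz => ((m_up.1 hz).elim id id) ▸ hE
  refine ⟨fun s σ a b c X hX => ?_, fun s σ a b c X hX => ?_⟩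
  · obtain ⟨n, a1, a2, a3, a4⟩ := h.comb (up i i) (fi_up i) h2 h3 σ a b c hX
    exact ⟨n, a1, m_inter.2 ⟨a2, (a3 i (by simp)).2 (by simp)⟩, a4⟩
  · obtain ⟨n, a1, a2, a3, a4⟩ := h.comb ∅ (fi_up i) h2 h3 σ a b c hX
    exact ⟨n, a1, m_diff.2 ⟨a2, fun e => m_emp i ((a3 i (by simp)).1 e)⟩, a4⟩

theorem Ind.dich {A F t E : M} (h : Ind A F t E) (hF : Cl F) (C : M) :
    ∃ t' e, Fi e ∧ e ⊆ pw (om M) ∧ t' ⊆ t ∧ Ind A F t' (E ∪ e) ∧ (t' ⊆ C ∨ ∀ n ∈ t', n ∉ C) := by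
  by_cases h1 : Ind A F (t ∩ C) E
  · exact ⟨_, ∅, fi_om emp_om, emp_sub _, fun z hz => (m_inter.1 hz).1,
      h1.mono fun z hz => m_union.2 (.inl hz), .inl fun z hz => (m_inter.1 hz).2⟩
  · simp only [Ind, not_forall] at h1
    obtain ⟨s, σ, a, b, c, X0, d, hX0⟩ := h1
    refine ⟨t \ C, s, a, b, fun z hz => (m_diff.1 hz).1, fun s' σ' a' b' c' X hX => ?_,
      .inr fun n hn => (m_diff.1 hn).2⟩
    obtain ⟨n, a1, a2, a3, a4⟩ := h.comb σ a b c σ' a' b' c' (hF X hX X0 d)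
    exact ⟨n, (m_inter.1 a1).1, m_diff.2 ⟨a2, fun e =>
      hX0 ⟨n, (m_inter.1 a1).2, m_inter.2 ⟨a2, e⟩, a3⟩⟩, a4⟩

/-- The sets `t`, `u` defeat the relation `r`. -/
def Kill (r : M → M → Prop) (t u : M) : Prop := ∃ S, S ⊆ om M ∧
  (((∀ C, ¬ r S C) ∧ t ⊆ S ∧ u ⊆ S) ∨ ∃ C, r S C ∧ (((∀ n ∈ t, n ∉ S) ∧ u ⊆ C) ∨
    ((∀ n ∈ u, n ∉ S) ∧ t ⊆ C) ∨ (t ⊆ S ∧ u ⊆ S ∧ (∀ n ∈ t, n ∉ C) ∧ ∀ n ∈ u, n ∉ C)))

theorem Kill.mono {r : M → M → Prop} {t u t' u' : M} (h : Kill r t u) (a : t' ⊆ t)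
    (b : u' ⊆ u) : Kill r t' u' := by
  obtain ⟨S, h0, ⟨h1, h2, h3⟩ | ⟨C, h1, h2⟩⟩ := h
  · exact ⟨S, h0, .inl ⟨h1, sub_trans a h2, sub_trans b h3⟩⟩
  · exact ⟨S, h0, .inr ⟨C, h1, h2.imp (fun h => ⟨fun n hn => h.1 n (a n hn), sub_trans b h.2⟩)
      (.imp (fun h => ⟨fun n hn => h.1 n (b n hn), sub_trans a h.2⟩) fun h => ⟨sub_trans a h.1,
        sub_trans b h.2.1, fun n hn => h.2.2.1 n (a n hn), fun n hn => h.2.2.2 n (b n hn)⟩)⟩⟩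

theorem kill_step {A F G E i : M} (hA : ap A i ⊆ om M) (cF : Cl F) (cG : Cl G)
    (hF : Ind A F (om M) E) (hG : Ind A G (om M) E) (hi : i ∈ pw (om M)) (hE : i ∉ E)
    (r : M → M → Prop) : ∃ t u e, Fi e ∧ e ⊆ pw (om M) ∧ Ind A F t (E ∪ e) ∧ Ind A G u (E ∪ e) ∧
      Kill r t u := by
  have h2 : up i i ⊆ pw (om M) := fun z hz => ((m_up.1 hz).elim id id) ▸ hi
  have p : om M ∩ ap A i ⊆ ap A i := fun z hz => (m_inter.1 hz).2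
  have q : ∀ n ∈ om M \ ap A i, n ∉ ap A i := fun z hz => (m_diff.1 hz).2
  by_cases h : ∀ C, ¬ r (ap A i) C
  · exact ⟨_, _, _, fi_up i, h2, (hF.pos hi hE).1, (hG.pos hi hE).1, _, hA, .inl ⟨h, p, p⟩⟩
  simp only [not_forall, not_not] at h
  obtain ⟨C, hC⟩ := h
  obtain ⟨t, e, a1, a2, a3, a4, a5⟩ := (hF.pos hi hE).1.dich cF C
  obtain ⟨u, e', b1, b2, b3, b4, b5⟩ := (hG.pos hi hE).1.dich cG C
  have f1 := ((fi_up i).union a1).union b1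
  have f2 : up i i ∪ e ∪ e' ⊆ pw (om M) := fun z hz =>
    (m_union.1 hz).elim (fun h => (m_union.1 h).elim (h2 z) (a2 z)) (b2 z)
  have s0 : E ∪ up i i ⊆ E ∪ (up i i ∪ e ∪ e') := fun z => by simp only [m_union]; tauto
  have s1 : E ∪ up i i ∪ e ⊆ E ∪ (up i i ∪ e ∪ e') := fun z => by simp only [m_union]; tauto
  have s2 : E ∪ up i i ∪ e' ⊆ E ∪ (up i i ∪ e ∪ e') := fun z => by simp only [m_union]; tauto
  rcases b5 with b5 | b5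
  · exact ⟨_, u, _, f1, f2, (hF.pos hi hE).2.mono s0, b4.mono s2, _, hA,
      .inr ⟨C, hC, .inl ⟨q, b5⟩⟩⟩
  rcases a5 with a5 | a5
  · exact ⟨t, _, _, f1, f2, a4.mono s1, (hG.pos hi hE).2.mono s0, _, hA,
      .inr ⟨C, hC, .inr (.inl ⟨q, a5⟩)⟩⟩
  · exact ⟨t, u, _, f1, f2, a4.mono s1, b4.mono s2, _, hA,
      .inr ⟨C, hC, .inr (.inr ⟨sub_trans a3 p, sub_trans b3 p, a5, b5⟩)⟩⟩

theorem add_set {A F t E : M} (cF : Cl F) (hF : F ⊆ pw (om M)) (h : Ind A F t E) :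
    ∃ F', F ⊆ F' ∧ F' ⊆ pw (om M) ∧ Cl F' ∧ Ind A F' (om M) E ∧ ∀ X ∈ F, X ∩ t ∈ F' := by
  obtain ⟨S, hS⟩ := repl F fun X => X ∩ t
  refine ⟨F ∪ S, fun z hz => m_union.2 (.inl hz), fun X hX => ?_, fun X hX Y hY => ?_,
    fun s σ a b c X hX => ?_, fun X hX => m_union.2 (.inr ((hS _).2 ⟨X, hX, rfl⟩))⟩
  · rcases m_union.1 hX with hX | hX
    · exact hF X hX
    · obtain ⟨Y, hY, rfl⟩ := (hS X).1 hX
      exact m_pw.2 fun k hk => m_pw.1 (hF Y hY) k (m_inter.1 hk).1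
  · simp only [m_union, hS] at hX hY ⊢
    rcases hX with hX | ⟨X, hX, rfl⟩ <;> rcases hY with hY | ⟨Y, hY, rfl⟩
    · exact .inl (cF X hX Y hY)
    all_goals exact .inr ⟨_, cF X hX Y hY, ext' fun k => by simp only [m_inter]; tauto⟩
  · rcases m_union.1 hX with hX | hX
    · obtain ⟨n, a1, -, a3⟩ := h s σ a b c X hX
      exact ⟨n, a1, m_pw.1 (hF X hX) n a1, a3⟩
    · obtain ⟨Y, hY, rfl⟩ := (hS X).1 hX
      obtain ⟨n, a1, a2, a3⟩ := h s σ a b c Y hY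
      exact ⟨n, m_inter.2 ⟨a1, a2⟩, m_pw.1 (hF Y hY) n a1, a3⟩

/-- A slice of a set of pairs. -/
noncomputable def sl (W a : M) : M := (sep (sU (sU W)) fun x => op a x ∈ W).choose

@[simp] theorem m_sl {W a x : M} : x ∈ sl W a ↔ op a x ∈ W :=
  ((sep (sU (sU W)) fun x => op a x ∈ W).choose_spec x).trans
    ⟨fun h => h.2, fun h => ⟨(op_sU h).2, h⟩⟩

instance (s t : α → M) [Tm s] [Tm t] : Tm fun a => sl (s a) (t a) :=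
  .ofMem _ (by simp only [m_sl]; infer_instance)

theorem exists_state (F G E : M) (hF : F ⊆ pw (om M)) (hG : G ⊆ pw (om M))
    (hE : E ⊆ pw (om M)) : ∃ W ∈ pw (pr (om M) (pw (om M))), sl W ∅ = F ∧ sl W (sc ∅) = G ∧
      sl W (sc (sc ∅)) = E ∧ ∀ p ∈ W, ∃ x, p = op ∅ x ∨ p = op (sc ∅) x ∨ p = op (sc (sc ∅)) x := by
  obtain ⟨W, hW⟩ := sep (pr (om M) (pw (om M))) fun p => ∃ x, (x ∈ F ∧ p = op (∅ : M) x) ∨
    (x ∈ G ∧ p = op (sc (∅ : M)) x) ∨ (x ∈ E ∧ p = op (sc (sc (∅ : M))) x)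
  have n1 : sc (∅ : M) ≠ ∅ := sc_ne _
  have n2 : sc (sc (∅ : M)) ≠ ∅ := sc_ne _
  have n3 : sc (sc (∅ : M)) ≠ sc ∅ := fun e => n1 (sc_inj od_emp.sc od_emp e)
  refine ⟨W, m_pw.2 fun p hp => ((hW p).1 hp).1, ext' fun x => ?_, ext' fun x => ?_,
    ext' fun x => ?_, fun p hp => ((hW p).1 hp).2.imp fun x h => h.imp (·.2) (.imp (·.2) (·.2))⟩
  · simpa [hW, n1.symm, n2.symm, emp_om] using fun h => m_pw.1 (hF x h)
  · simpa [hW, n1, n3.symm, sc_om emp_om] using fun h => m_pw.1 (hG x h)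
  · simpa [hW, n2, n3, sc_om (sc_om emp_om)] using fun h => m_pw.1 (hE x h)

/-- The invariant of the recursion. -/
def Good (A W : M) : Prop :=
  (∀ p ∈ W, ∃ x ∈ pw (om M), p = op ∅ x ∨ p = op (sc ∅) x ∨ p = op (sc (sc ∅)) x) ∧
  Cl (sl W ∅) ∧ Cl (sl W (sc ∅)) ∧
  Ind A (sl W ∅) (om M) (sl W (sc (sc ∅))) ∧ Ind A (sl W (sc ∅)) (om M) (sl W (sc (sc ∅)))

instance (A : M) (s : α → M) [Tm s] : Df M fun a => Good A (s a) := by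
  unfold Good Cl; infer_instance

theorem Good.sub {A W a : M} (h : Good A W) : sl W a ⊆ pw (om M) := fun x hx => by
  obtain ⟨y, h1, e | e | e⟩ := h.1 _ (m_sl.1 hx) <;> exact (op_inj e).2 ▸ h1

theorem good_sU {A S : M} (h : ∀ W ∈ S, Good A W) (hc : ∀ W ∈ S, ∀ W' ∈ S, W ⊆ W' ∨ W' ⊆ W) :
    Good A (sU S) := by
  have c : ∀ a, (∀ W ∈ S, Cl (sl W a)) → Cl (sl (sU S) a) := fun a H X hX Y hY => by
    obtain ⟨W, a1, a2⟩ := m_sU.1 (m_sl.1 hX)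
    obtain ⟨W', b1, b2⟩ := m_sU.1 (m_sl.1 hY)
    rcases hc W a1 W' b1 with e | e
    · exact m_sl.2 (m_sU.2 ⟨W', b1, m_sl.1 (H W' b1 X (m_sl.2 (e _ a2)) Y (m_sl.2 b2))⟩)
    · exact m_sl.2 (m_sU.2 ⟨W, a1, m_sl.1 (H W a1 X (m_sl.2 a2) Y (m_sl.2 (e _ b2)))⟩)
  have d : ∀ a b, (∀ W ∈ S, Ind A (sl W a) (om M) (sl W b)) →
      Ind A (sl (sU S) a) (om M) (sl (sU S) b) := fun a b H s σ h1 h2 h3 X hX => by
    obtain ⟨W, a1, a2⟩ := m_sU.1 (m_sl.1 hX)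
    exact H W a1 s σ h1 h2 (fun i hi e => h3 i hi (m_sl.2 (m_sU.2 ⟨W, a1, m_sl.1 e⟩))) X
      (m_sl.2 a2)
  refine ⟨fun p hp => ?_, c _ fun W hW => (h W hW).2.1, c _ fun W hW => (h W hW).2.2.1,
    d _ _ fun W hW => (h W hW).2.2.2.1, d _ _ fun W hW => (h W hW).2.2.2.2⟩
  obtain ⟨W, a1, a2⟩ := m_sU.1 hp
  exact (h W a1).1 p a2

theorem good_mk {A F G E : M} (hF : F ⊆ pw (om M)) (hG : G ⊆ pw (om M)) (hE : E ⊆ pw (om M))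
    (cF : Cl F) (cG : Cl G) (iF : Ind A F (om M) E) (iG : Ind A G (om M) E) :
    ∃ W ∈ pw (pr (om M) (pw (om M))), Good A W ∧ sl W ∅ = F ∧ sl W (sc ∅) = G ∧
      sl W (sc (sc ∅)) = E := by
  obtain ⟨W, w0, rfl, rfl, rfl, w4⟩ := exists_state F G E hF hG hE
  refine ⟨W, w0, ⟨fun p hp => ?_, cF, cG, iF, iG⟩, rfl, rfl, rfl⟩
  obtain ⟨x, h⟩ := w4 p hp
  refine ⟨x, ?_, h⟩
  rcases h with rfl | rfl | rfl <;> exact (op_pr.1 (m_pw.1 w0 _ hp)).2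

theorem good_step {A V i : M} (hA : ap A i ⊆ om M) (h : Good A V) (hi : i ∈ pw (om M))
    (hE : i ∉ sl V (sc (sc ∅))) (r : M → M → Prop) (C : M) :
    ∃ W ∈ pw (pr (om M) (pw (om M))), V ⊆ W ∧ Good A W ∧
      (∃ e, Fi e ∧ sl W (sc (sc ∅)) ⊆ sl V (sc (sc ∅)) ∪ e) ∧
      ∀ X ∈ sl V ∅, ∀ Y ∈ sl V (sc ∅), ∃ t ∈ sl W ∅, ∃ u ∈ sl W (sc ∅), Kill r t u ∧
        (t ⊆ C ∨ ∀ n ∈ t, n ∉ C) ∧ (u ⊆ C ∨ ∀ n ∈ u, n ∉ C) := by
  obtain ⟨t0, u0, e0, a1, a2, a3, a4, a5⟩ :=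
    kill_step hA h.2.1 h.2.2.1 h.2.2.2.1 h.2.2.2.2 hi hE r
  obtain ⟨t, e1, b1, b2, b3, b4, b5⟩ := a3.dich h.2.1 C
  obtain ⟨u, e2, c1, c2, c3, c4, c5⟩ := a4.dich h.2.2.1 C
  obtain ⟨F, f1, f2, f3, f4, f5⟩ := add_set h.2.1 h.sub (b4.mono
    (E' := sl V (sc (sc ∅)) ∪ (e0 ∪ e1 ∪ e2)) fun z => by simp only [m_union]; tauto)
  obtain ⟨G, g1, g2, g3, g4, g5⟩ := add_set h.2.2.1 h.sub (c4.mono
    (E' := sl V (sc (sc ∅)) ∪ (e0 ∪ e1 ∪ e2)) fun z => by simp only [m_union]; tauto)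
  obtain ⟨W, w0, w1, rfl, rfl, w4⟩ := good_mk f2 g2 (fun z hz => (m_union.1 hz).elim (h.sub z)
    fun h => (m_union.1 h).elim (fun h => (m_union.1 h).elim (a2 z) (b2 z)) (c2 z)) f3 g3 f4 g4
  have s : ∀ X t : M, X ∩ t ⊆ t := fun X t z hz => (m_inter.1 hz).2
  refine ⟨W, w0, fun p hp => ?_, w1, ⟨_, (a1.union b1).union c1, w4 ▸ sub_rfl⟩,
    fun X hX Y hY => ⟨_, f5 X hX, _, g5 Y hY, a5.mono (sub_trans (s _ _) b3)
      (sub_trans (s _ _) c3), b5.imp (sub_trans (s _ _)) fun h n hn => h n (s _ _ n hn),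
      c5.imp (sub_trans (s _ _)) fun h n hn => h n (s _ _ n hn)⟩⟩
  obtain ⟨x, -, rfl | rfl | rfl⟩ := h.1 p hp
  · exact m_sl.1 (f1 x (m_sl.2 hp))
  · exact m_sl.1 (g1 x (m_sl.2 hp))
  · exact m_sl.1 (w4 ▸ m_union.2 (.inl (m_sl.2 hp)))

theorem exists_uf {A W0 Z : M} (hA : ∀ i ∈ pw (om M), ap A i ⊆ om M) (h0 : Good A W0)
    (h1 : Fi (sl W0 (sc (sc ∅)))) {X Y : M} (hX : X ∈ sl W0 ∅) (hY : Y ∈ sl W0 (sc ∅))
    (hZ : Le Z (pw (om M))) (r : M → M → M → Prop)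
    [hr : Df M fun z : ((Unit × M) × M) × M => r z.1.1.2 z.1.2 z.2] :
    ∃ W, W0 ⊆ W ∧ Good A W ∧ ∀ c ∈ Z, ∀ C ∈ pw (om M), ∃ t ∈ sl W ∅, ∃ u ∈ sl W (sc ∅),
      Kill (r c) t u ∧ (t ⊆ C ∨ ∀ n ∈ t, n ∉ C) ∧ (u ⊆ C ∨ ∀ n ∈ u, n ∉ C) := by
  have i1 := @dfR3 M _ r hr
  obtain ⟨k, k1, k2, k3⟩ := exists_card (pw (om M))
  have k4 : om M ∈ k := (od_om.mem_or_sub k1.1).resolve_right fun h =>
    cantor _ (k2.trans (le_of_sub h))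
  obtain ⟨g, g1, g2⟩ := pr_le k1.1 (k1.1.sub k4) (hZ.trans k2) k2
  obtain ⟨S, s1, s2⟩ := rec_ch k1.1 (pw (pr (om M) (pw (om M)))) (fun d f W =>
      Good A (W0 ∪ sU (im f d)) → Le (sl (W0 ∪ sU (im f d)) (sc (sc (∅ : M)))) (d ∪ om M) →
      W0 ∪ sU (im f d) ⊆ W ∧ Good A W ∧ Le (sl W (sc (sc (∅ : M)))) (d ∪ om M) ∧
      ∀ q ∈ pr Z (pw (om M)), ap g q = d → ∃ t ∈ sl W (∅ : M), ∃ u ∈ sl W (sc (∅ : M)),
        Kill (r (p1 q)) t u ∧ (t ⊆ p2 q ∨ ∀ n ∈ t, n ∉ p2 q) ∧ (u ⊆ p2 q ∨ ∀ n ∈ u, n ∉ p2 q))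
      (hr := by unfold Kill; infer_instance) fun d hd f _ => by
    by_cases h : Good A (W0 ∪ sU (im f d)) ∧
        Le (sl (W0 ∪ sU (im f d)) (sc (sc ∅))) (d ∪ om M)
    · have hd' := k1.1.union_mem hd k4
      obtain ⟨i, hi, hi'⟩ : ∃ i ∈ pw (om M), i ∉ sl (W0 ∪ sU (im f d)) (sc (sc ∅)) := by
        by_contra hc
        exact k1.2 _ hd' (k3.trans ((le_of_sub fun i hi => by_contra fun e =>
          hc ⟨i, hi, e⟩).trans h.2))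
      obtain ⟨q, hq⟩ : ∃ q, ∀ q' ∈ pr Z (pw (om M)), ap g q' = d → q' = q := by
        by_cases e : ∃ q ∈ pr Z (pw (om M)), ap g q = d
        · obtain ⟨q, a, b⟩ := e
          exact ⟨q, fun q' a' b' => g2 q' a' q a (b'.trans b.symm)⟩
        · exact ⟨∅, fun q a b => absurd ⟨q, a, b⟩ e⟩
      obtain ⟨W, w0, w1, w2, ⟨e, e1, e2⟩, w3⟩ := good_step (hA i hi) h.1 hi hi' (r (p1 q)) (p2 q)
      have ho : om M ⊆ d ∪ om M := fun z hz => m_union.2 (.inr hz)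
      refine ⟨W, w0, fun _ _ => ⟨w1, w2, (le_of_sub e2).trans (union_le (k1.1.mem hd') ho h.2
        (e1.le_om.trans (le_of_sub ho))), fun q' a b => ?_⟩⟩
      rw [hq q' a b]
      exact w3 X (m_sl.2 (m_union.2 (.inl (m_sl.1 hX)))) Y (m_sl.2 (m_union.2 (.inl (m_sl.1 hY))))
    · exact ⟨∅, m_pw.2 (emp_sub _), fun a b => absurd ⟨a, b⟩ h⟩
  simp only [im_rs] at s2
  have inv : ∀ d, Od d → d ⊆ k → Good A (W0 ∪ sU (im S d)) ∧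
      Le (sl (W0 ∪ sU (im S d)) (sc (sc ∅))) (d ∪ om M) := by
    refine od_ind _ fun d hd ih hdk => ?_
    have h2 := fun j (hj : j ∈ d) => s2 j (hdk j hj) (ih j hj (sub_trans (hd.sub hj) hdk)).1
      (ih j hj (sub_trans (hd.sub hj) hdk)).2
    have h3 : ∀ j ∈ d, ∀ j' ∈ j, ap S j' ⊆ ap S j := fun j hj j' hj' z hz =>
      (h2 j hj).1 z (m_union.2 (.inr (m_sU.2 ⟨_, m_im.2 ⟨j', hj', rfl⟩, hz⟩)))
    have h4 : ∀ j ∈ d, W0 ⊆ ap S j := fun j hj z hz => (h2 j hj).1 z (m_union.2 (.inl hz))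
    have e : W0 ∪ sU (im S d) = sU (im S d ∪ up W0 W0) := ext' fun z => by
      simp only [m_union, m_sU, m_up, or_self]
      exact ⟨fun h => h.elim (fun h => ⟨W0, .inr rfl, h⟩) fun ⟨y, a, b⟩ => ⟨y, .inl a, b⟩,
        fun ⟨y, a, b⟩ => a.elim (fun a => .inr ⟨y, a, b⟩) fun a => .inl (a ▸ b)⟩
    have ho : om M ⊆ d ∪ om M := fun z hz => m_union.2 (.inr hz)
    have hd' : Od (d ∪ om M) := by rcases hd.union od_om with e | e <;> rw [e]; exacts [hd, od_om]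
    refine ⟨e ▸ good_sU (fun W hW => ?_) fun W hW W' hW' => ?_, ?_⟩
    · simp only [m_union, m_im, m_up, or_self] at hW
      rcases hW with ⟨j, hj, rfl⟩ | rfl
      exacts [(h2 j hj).2.1, h0]
    · simp only [m_union, m_im, m_up, or_self] at hW hW'
      rcases hW with ⟨j, hj, rfl⟩ | rfl <;> rcases hW' with ⟨j', hj', rfl⟩ | rfl
      · rcases od_tri j (hd.mem hj) j' (hd.mem hj') with e | rfl | e
        exacts [.inl (h3 j' hj' j e), .inl sub_rfl, .inr (h3 j hj j' e)]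
      exacts [.inr (h4 j hj), .inl (h4 j' hj'), .inl sub_rfl]
    · obtain ⟨T, hT⟩ := repl d fun j => sl (ap S j) (sc (sc (∅ : M)))
      refine (le_of_sub (B := sl W0 (sc (sc ∅)) ∪ sU T) fun z hz => ?_).trans (union_le hd' ho
        (h1.le_om.trans (le_of_sub ho)) (sU_le hd' ho ((le_surj _ fun y hy => (hT y).1 hy).trans
          (le_of_sub fun z hz => m_union.2 (.inl hz))) fun y hy => ?_))
      · rcases m_union.1 (m_sl.1 hz) with h | h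
        · exact m_union.2 (.inl (m_sl.2 h))
        · obtain ⟨y, a, b⟩ := m_sU.1 h
          obtain ⟨j, hj, rfl⟩ := m_im.1 a
          exact m_union.2 (.inr (m_sU.2 ⟨_, (hT _).2 ⟨j, hj, rfl⟩, m_sl.2 b⟩))
      · obtain ⟨j, hj, rfl⟩ := (hT y).1 hy
        exact (h2 j hj).2.2.1.trans (le_of_sub fun z hz =>
          m_union.2 ((m_union.1 hz).imp_left (hd.sub hj z)))
  refine ⟨_, fun z hz => m_union.2 (.inl hz), (inv k k1.1 sub_rfl).1, fun c hc C hC => ?_⟩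
  have hq := op_pr.2 ⟨hc, hC⟩
  have hd := g1 _ hq
  obtain ⟨t, a1, u, a2, a3⟩ := (s2 _ hd (inv _ (k1.1.mem hd) (k1.1.sub hd)).1
    (inv _ (k1.1.mem hd) (k1.1.sub hd)).2).2.2.2 _ hq rfl
  rw [p1_op, p2_op] at a3
  have m : ∀ a x, x ∈ sl (ap S (ap g (op c C))) a → x ∈ sl (W0 ∪ sU (im S k)) a := fun a x h =>
    m_sl.2 (m_union.2 (.inr (m_sU.2 ⟨_, m_im.2 ⟨_, hd, rfl⟩, m_sl.1 h⟩)))
  exact ⟨t, m _ _ a1, u, m _ _ a2, a3⟩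

end Pool.Agent.Lib.MP_60e7f9_lc.Prov
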