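import Mathlib
import Pool.Agent.Lib.MP_60e7f9_lc.Prov.Defs

/-!
The existence of a non-meager filter whose coideal is not homeomorphic to its square, as a
sentence of set theory. Points of the Cantor space are subsets of `ω`.
-/

set_option autoImplicit false

namespace Pool.Agent.Lib.MP_60e7f9_lc.Prov

/-- `x` and `y` agree below `n`. -/
def agr (x y n : ℕ) : F := allIn n fun k => iff (mem k x) (mem k y)

/-- `A` is a filter on `ω`: a family of subsets of `ω` that is closed under intersections and
supersets, omits the empty set and contains all cofinite sets. -/
def filt (A : ℕ) : F :=
  and (allIn A real)
    (and (allIn A fun x => allIn A fun y => all fun s => imp (res s x y) (mem s A))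
      (and (allIn A fun x => all fun y => imp (real y) (imp (sub x y) (mem y A)))
        (and (neg (exIn A emp))
          (all fun y => imp (real y) (imp (ex fun n => and (nat n)
            (all fun k => imp (nat k) (or (mem k n) (mem k y)))) (mem y A))))))

/-- `K` is nowhere dense: each basic open set has a basic open subset that misses `K`. -/
def nwd (K : ℕ) : F := all fun x => imp (real x) (all fun n => imp (nat n)
  (ex fun y => and (real y) (ex fun m => and (nat m) (and (agr x y n) (and (sub n m)
    (allIn K fun z => neg (agr z y m)))))))

/-- `X` is meager: it is covered by nowhere dense sets `R(n)`, `n ∈ ω`. -/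
def mgr (X : ℕ) : F := ex fun R =>
  and (all fun n => all fun K => all fun K' => imp (app R n K) (imp (app R n K') (eq K K')))
    (and (all fun n => all fun K => imp (app R n K) (nwd K))
      (allIn X fun x => ex fun n => ex fun K => and (nat n) (and (app R n K) (mem x K))))

/-- `G` is the coideal of `A`. -/
def coid (A G : ℕ) : F := all fun x =>
  iff (mem x G) (and (real x) (allIn A fun y => exIn x fun k => mem k y))

/-- `(x, (y, z)) ∈ h` -/
def tri (h x y z : ℕ) : F := ex fun p => and (opr p y z) (app h x p)

/-- `h` is a homeomorphism of `G` onto `G × G`: it is a set of triples that is total in both
directions, one-to-one, and continuous in both directions. -/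
def homeo (h G : ℕ) : F :=
  and (allIn h fun q => exIn G fun x => exIn G fun y => exIn G fun z => ex fun p =>
      and (opr p y z) (opr q x p))
    (and (allIn G fun x => ex fun y => ex fun z => tri h x y z)
      (and (allIn G fun y => allIn G fun z => ex fun x => tri h x y z)
        (and (all fun x => all fun y => all fun z => all fun x' => all fun y' => all fun z' =>
            imp (tri h x y z) (imp (tri h x' y' z') (iff (eq x x') (and (eq y y') (eq z z')))))
          (all fun x => all fun y => all fun z => imp (tri h x y z) (all fun n => imp (nat n)
            (ex fun m => and (nat m) (all fun x' => all fun y' => all fun z' =>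
              imp (tri h x' y' z')
                (and (imp (agr x x' m) (and (agr y y' n) (agr z z' n)))
                  (imp (and (agr y y' m) (agr z z' m)) (agr x x' n))))))))))

/-- Some non-meager filter has a coideal that is not homeomorphic to its square. -/
def coidSq : F := ex fun A => and (filt A) (and (neg (mgr A))
  (ex fun G => and (coid A G) (neg (ex fun h => homeo h G))))

end Pool.Agent.Lib.MP_60e7f9_lc.Prov
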