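import Mathlib
import Pool.Agent.Lib.MP_2ea626_lc.ProvB
import Pool.Agent.Lib.MP_2ea626_lc.ProvDefs

/-!
The sentence `coidSq` holds in every model of ZFC, hence it is provable from ZFC.
-/

set_option autoImplicit false
set_option linter.unusedSectionVars false
set_option linter.unusedVariables false
set_option linter.unusedSimpArgs false
set_option synthInstance.maxSize 100000

namespace Pool.Agent.Lib.MP_60e7f9_lc.Prov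

open Pool.Agent.Lib.Common.Forcing

variable {M : Type} [Mod M]

/-- The relation given by a code. -/
def Coded (c y z x : M) : Prop :=
  (∀ n ∈ om M, ∃ m ∈ om M, op n (op (y ∩ m) (op (z ∩ m) (op m (x ∩ n)))) ∈ p1 c) ∧
  ∀ n ∈ om M, ∃ m ∈ om M, op n (op (y ∩ n) (op (z ∩ n) (op m (x ∩ m)))) ∈ p2 c

theorem res_eq {x y n : M} : x ∩ n = y ∩ n ↔ ∀ k ∈ n, (k ∈ x ↔ k ∈ y) :=
  ⟨fun e k hk => by
    have : k ∈ x ∩ n ↔ k ∈ y ∩ n := by rw [e]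
    simpa [hk] using this, fun h => ext' fun k => by
    simp only [m_inter]
    exact and_congr_left (h k)⟩

theorem eq_of_res {x y : M} (hx : x ⊆ om M) (hy : y ⊆ om M) (h : ∀ n ∈ om M, x ∩ n = y ∩ n) :
    x = y :=
  ext (fun k hk => (res_eq.1 (h _ (sc_om (hx k hk))) k (mem_sc k)).1 hk)
    fun k hk => (res_eq.1 (h _ (sc_om (hy k hk))) k (mem_sc k)).2 hk

theorem exists_code : ∃ Z : M, Le Z (pw (om M)) ∧ ∀ G h : M, (∀ x ∈ G, x ⊆ om M) →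
    (∀ x y z, op x (op y z) ∈ h → x ∈ G ∧ y ∈ G ∧ z ∈ G) →
    (∀ x ∈ G, ∃ y z, op x (op y z) ∈ h) → (∀ y ∈ G, ∀ z ∈ G, ∃ x, op x (op y z) ∈ h) →
    (∀ x y z, op x (op y z) ∈ h → ∀ n ∈ om M, ∃ m ∈ om M, ∀ x' y' z', op x' (op y' z') ∈ h →
      ((∀ k ∈ m, (k ∈ x ↔ k ∈ x')) → (∀ k ∈ n, (k ∈ y ↔ k ∈ y')) ∧ ∀ k ∈ n, (k ∈ z ↔ k ∈ z')) ∧
      (((∀ k ∈ m, (k ∈ y ↔ k ∈ y')) ∧ ∀ k ∈ m, (k ∈ z ↔ k ∈ z')) → ∀ k ∈ n, (k ∈ x ↔ k ∈ x'))) →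
    ∃ c ∈ Z, (∀ y ∈ G, ∀ z ∈ G, ∃ x, x ⊆ om M ∧ Coded c y z x) ∧
      ∀ x y z, x ⊆ om M → y ⊆ om M → z ⊆ om M → Coded c y z x → ((y ∈ G ∧ z ∈ G) ↔ x ∈ G) := by
  obtain ⟨H, hH, hH'⟩ := exists_ctble (M := M) (fun n => pw n) fun n hn => (fi_om hn).pw
  have hT : Le (pr H (pr H (pr H (pr H H)))) (om M) :=
    pr_le od_om sub_rfl hH (pr_le od_om sub_rfl hH (pr_le od_om sub_rfl hH
      (pr_le od_om sub_rfl hH hH)))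
  obtain ⟨k, k1, k2, k3⟩ := exists_card (pw (om M))
  have k4 : om M ⊆ k := k1.1.sub ((od_om.mem_or_sub k1.1).resolve_right fun h =>
    cantor _ (k2.trans (le_of_sub h)))
  refine ⟨_, (pr_le k1.1 k4 (hT.pw.trans k2) (hT.pw.trans k2)).trans k3,
    fun G h g0 g1 g2 g3 g4 => ?_⟩
  have t1 : ∀ n ∈ om M, n ∈ H := fun n hn => hH' n hn n (m_pw.2 sub_rfl)
  have t2 : ∀ x, ∀ n ∈ om M, x ∩ n ∈ H := fun x n hn =>
    hH' n hn _ (m_pw.2 fun k hk => (m_inter.1 hk).2)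
  obtain ⟨c, hc⟩ := sep (pr H (pr H (pr H (pr H H)))) fun p => ∀ n u v m w,
    p = op n (op u (op v (op m w))) → ∀ x y z, op x (op y z) ∈ h → y ∩ m = u → z ∩ m = v →
      x ∩ n = w
  obtain ⟨d, hd⟩ := sep (pr H (pr H (pr H (pr H H)))) fun p => ∀ n u v m w,
    p = op n (op u (op v (op m w))) → ∀ x y z, op x (op y z) ∈ h → x ∩ m = w →
      y ∩ n = u ∧ z ∩ n = v
  refine ⟨op c d, op_pr.2 ⟨m_pw.2 fun p hp => ((hc p).1 hp).1, m_pw.2 fun p hp => ((hd p).1 hp).1⟩,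
    fun y hy z hz => ?_, fun x y z hx hy hz ⟨a, b⟩ => ⟨fun ⟨hy', hz'⟩ => ?_, fun hx' => ?_⟩⟩
  · obtain ⟨x, hx⟩ := g3 y hy z hz
    refine ⟨x, g0 x (g1 _ _ _ hx).1, fun n hn => ?_, fun n hn => ?_⟩ <;>
      obtain ⟨m, hm, e⟩ := g4 x y z hx n hn <;> refine ⟨m, hm, ?_⟩
    · rw [p1_op, hc]
      refine ⟨by simp [t1, t2, hn, hm], fun n' u v m' w e' x' y' z' h' e1 e2 => ?_⟩
      simp only [op_eq] at e'
      obtain ⟨rfl, rfl, rfl, rfl, rfl⟩ := e'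
      exact (res_eq.2 ((e _ _ _ h').2 ⟨res_eq.1 e1.symm, res_eq.1 e2.symm⟩)).symm
    · rw [p2_op, hd]
      refine ⟨by simp [t1, t2, hn, hm], fun n' u v m' w e' x' y' z' h' e1 => ?_⟩
      simp only [op_eq] at e'
      obtain ⟨rfl, rfl, rfl, rfl, rfl⟩ := e'
      have := (e _ _ _ h').1 (res_eq.1 e1.symm)
      exact ⟨(res_eq.2 this.1).symm, (res_eq.2 this.2).symm⟩
  · obtain ⟨x', hx'⟩ := g3 y hy' z hz'
    have := (g1 _ _ _ hx').1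
    refine eq_of_res (g0 x' this) hx (fun n hn => ?_) ▸ this
    obtain ⟨m, -, e⟩ := a n hn
    rw [p1_op, hc] at e
    exact e.2 _ _ _ _ _ rfl _ _ _ hx' rfl rfl
  · obtain ⟨y', z', h'⟩ := g2 x hx'
    obtain ⟨-, a1, a2⟩ := g1 _ _ _ h'
    have : ∀ n ∈ om M, y' ∩ n = y ∩ n ∧ z' ∩ n = z ∩ n := fun n hn => by
      obtain ⟨m, -, e⟩ := b n hn
      rw [p2_op, hd] at e
      exact e.2 _ _ _ _ _ rfl _ _ _ h' rfl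
    exact ⟨eq_of_res (g0 _ a1) hy (fun n hn => (this n hn).1) ▸ a1,
      eq_of_res (g0 _ a2) hz (fun n hn => (this n hn).2) ▸ a2⟩

theorem coidSq_mod : ∃ F : M, ((∀ x ∈ F, x ⊆ om M) ∧ (∀ x ∈ F, ∀ y ∈ F, ∀ s, s = x ∩ y → s ∈ F) ∧
      (∀ x ∈ F, ∀ y, y ⊆ om M → x ⊆ y → y ∈ F) ∧ ∅ ∉ F ∧
      ∀ y, y ⊆ om M → (∃ n ∈ om M, ∀ k ∈ om M, k ∈ n ∨ k ∈ y) → y ∈ F) ∧
    (¬ ∃ R : M, (∀ n K K', op n K ∈ R → op n K' ∈ R → K = K') ∧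
      (∀ n K, op n K ∈ R → Nwd (· ∈ K)) ∧ ∀ x ∈ F, ∃ n K, n ∈ om M ∧ op n K ∈ R ∧ x ∈ K) ∧
    ∃ G : M, (∀ x, x ∈ G ↔ x ⊆ om M ∧ ∀ y ∈ F, ∃ k ∈ x, k ∈ y) ∧ ¬ ∃ h : M,
      (∀ q ∈ h, ∃ x ∈ G, ∃ y ∈ G, ∃ z ∈ G, q = op x (op y z)) ∧
      (∀ x ∈ G, ∃ y z, op x (op y z) ∈ h) ∧ (∀ y ∈ G, ∀ z ∈ G, ∃ x, op x (op y z) ∈ h) ∧
      (∀ x y z x' y' z', op x (op y z) ∈ h → op x' (op y' z') ∈ h →
        (x = x' ↔ y = y' ∧ z = z')) ∧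
      ∀ x y z, op x (op y z) ∈ h → ∀ n ∈ om M, ∃ m ∈ om M, ∀ x' y' z', op x' (op y' z') ∈ h →
      ((∀ k ∈ m, (k ∈ x ↔ k ∈ x')) → (∀ k ∈ n, (k ∈ y ↔ k ∈ y')) ∧ ∀ k ∈ n, (k ∈ z ↔ k ∈ z')) ∧
      (((∀ k ∈ m, (k ∈ y ↔ k ∈ y')) ∧ ∀ k ∈ m, (k ∈ z ↔ k ∈ z')) →
        ∀ k ∈ n, (k ∈ x ↔ k ∈ x')) := by
  obtain ⟨A, B, hA, hB, h0⟩ := exists_indep (M := M)
  obtain ⟨Z, hZ, hc⟩ := exists_code (M := M)
  have b1 : B ⊆ pw (om M) := fun X hX => by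
    obtain ⟨n, -, rfl⟩ := (hB X).1 hX
    exact m_pw.2 fun k hk => (m_diff.1 hk).1
  have b2 : Cl B := fun X hX Y hY => by
    obtain ⟨n, hn, rfl⟩ := (hB X).1 hX
    obtain ⟨m, hm, rfl⟩ := (hB Y).1 hY
    exact (hB _).2 ⟨_, od_om.union_mem hn hm, ext' fun k => by
      simp only [m_inter, m_diff, m_union]; tauto⟩
  have b3 : om M \ ∅ ∈ B := (hB _).2 ⟨_, emp_om, rfl⟩
  have e0 : (∅ : M) ∈ pw (om M) := m_pw.2 (emp_sub _)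
  have hE := hA _ e0
  obtain ⟨F0, f1, f2, f3, f4, f5⟩ := add_set b2 b1 (h0.pos e0 (m_emp _)).1
  obtain ⟨G0, g1, g2, g3, g4, g5⟩ := add_set b2 b1 (h0.pos e0 (m_emp _)).2
  obtain ⟨W0, -, w1, rfl, rfl, w4⟩ := good_mk f2 g2 (fun z hz => by
    simp only [m_union, m_emp, m_up, or_self, false_or] at hz; exact hz ▸ e0) f3 g3 f4 g4
  generalize ap A ∅ = E at *
  obtain ⟨W, w0, w, hW⟩ := exists_uf hA w1 (w4 ▸ (fi_om emp_om).union (fi_up ∅)) (f1 _ b3)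
    (g1 _ b3) hZ (fun c S C => C ⊆ om M ∧ Coded c (S ∩ E) (S \ E) C)
    (hr := by unfold Coded; infer_instance)
  obtain ⟨c0, hc0, -⟩ := hc ∅ ∅ (by simp) (by simp) (by simp) (by simp) (by simp)
  let u : M → M → Prop := fun a X => ∃ Y ∈ sl W a, Y ⊆ X
  have up' : ∀ a X Y, u a X → X ⊆ Y → u a Y := fun a X Y ⟨t, a1, a2⟩ h => ⟨t, a1, sub_trans a2 h⟩
  have mt : ∀ a, Cl (sl W a) → ∀ X Y, u a X → u a Y → u a (X ∩ Y) :=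
    fun a h X Y ⟨t, a1, a2⟩ ⟨t', b1, b2⟩ => ⟨_, h t a1 t' b1, fun k hk =>
      m_inter.2 ⟨a2 k (m_inter.1 hk).1, b2 k (m_inter.1 hk).2⟩⟩
  have ne : ∀ a, Cl (sl W a) → Ind A (sl W a) (om M) (sl W (sc (sc ∅))) → ∀ X Y, u a X → u a Y →
      ∃ k ∈ X, k ∈ Y := fun a h h' X Y a1 a2 => by
    obtain ⟨t, b1, b2⟩ := mt a h X Y a1 a2
    obtain ⟨n, hn, -⟩ := h' ∅ ∅ (fi_om emp_om) (emp_sub _) (by simp) t b1
    exact ⟨n, m_inter.1 (b2 n hn)⟩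
  have n0 := ne _ w.2.1 w.2.2.2.1
  have n1 := ne _ w.2.2.1 w.2.2.2.2
  have cp : ∀ a C, ∀ t ∈ sl W a, (∀ n ∈ t, n ∉ C) → u a (om M \ C) := fun a C t ht h =>
    ⟨t, ht, fun k hk => m_diff.2 ⟨m_pw.1 (w.sub t ht) k hk, h k hk⟩⟩
  have ul : ∀ C, C ⊆ om M → (u ∅ C ∨ u ∅ (om M \ C)) ∧ (u (sc ∅) C ∨ u (sc ∅) (om M \ C)) :=
    fun C hC => by
      obtain ⟨t, a1, s, a2, -, a3, a4⟩ := hW c0 hc0 C (m_pw.2 hC)
      exact ⟨a3.imp (fun h => ⟨t, a1, h⟩) (cp _ C t a1), a4.imp (fun h => ⟨s, a2, h⟩) (cp _ C s a2)⟩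
  have s0 : ∀ a X, X ∈ sl W0 a → X ∈ sl W a := fun a X h => m_sl.2 (w0 _ (m_sl.1 h))
  have uE : u ∅ E := ⟨_, s0 _ _ (f5 _ b3), fun k hk => (m_inter.1 (m_inter.1 hk).2).2⟩
  have vE : u (sc ∅) (om M \ E) := ⟨_, s0 _ _ (g5 _ b3), fun k hk => (m_inter.1 hk).2⟩
  obtain ⟨F, hF⟩ := sep (pw (om M)) fun X => (∃ Y ∈ sl W (∅ : M), Y ⊆ X) ∧
    ∃ Y ∈ sl W (sc (∅ : M)), Y ⊆ X
  obtain ⟨G, hG⟩ := sep (pw (om M)) fun X => (∃ Y ∈ sl W (∅ : M), Y ⊆ X) ∨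
    ∃ Y ∈ sl W (sc (∅ : M)), Y ⊆ X
  replace hF : ∀ X, X ∈ F ↔ X ⊆ om M ∧ u ∅ X ∧ u (sc ∅) X := by simpa only [m_pw] using hF
  replace hG : ∀ X, X ∈ G ↔ X ⊆ om M ∧ (u ∅ X ∨ u (sc ∅) X) := by simpa only [m_pw] using hG
  have ds : ∀ x y : M, x \ y ⊆ x := fun x y k hk => (m_diff.1 hk).1
  refine ⟨F, ⟨fun x hx => ((hF x).1 hx).1, ?_, fun x hx y hy h => ?_, fun h => ?_,
    fun y hy ⟨n, hn, h⟩ => ?_⟩, ?_, G, fun x => ?_, ?_⟩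
  · rintro x hx y hy _ rfl
    obtain ⟨a1, a2, a3⟩ := (hF x).1 hx
    obtain ⟨-, b2, b3⟩ := (hF y).1 hy
    exact (hF _).2 ⟨fun k hk => a1 k (m_inter.1 hk).1, mt _ w.2.1 _ _ a2 b2, mt _ w.2.2.1 _ _ a3 b3⟩
  · exact (hF y).2 ⟨hy, up' _ _ _ ((hF x).1 hx).2.1 h, up' _ _ _ ((hF x).1 hx).2.2 h⟩
  · obtain ⟨k, hk, -⟩ := n0 _ _ ((hF _).1 h).2.1 uE
    exact m_emp k hk
  · have h1 : om M \ n ∈ B := (hB _).2 ⟨n, hn, rfl⟩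
    have h2 : om M \ n ⊆ y := fun k hk => (h k (m_diff.1 hk).1).resolve_left (m_diff.1 hk).2
    exact (hF y).2 ⟨hy, ⟨_, s0 _ _ (f1 _ h1), h2⟩, _, s0 _ _ (g1 _ h1), h2⟩
  · rintro ⟨R, r1, r2, r3⟩
    have key : ∀ n, Nwd fun z => ∃ K, op n K ∈ R ∧ z ∈ K := fun n x hx l hl => by
      by_cases h : ∃ K, op n K ∈ R
      · obtain ⟨K, hK⟩ := h
        obtain ⟨y, a1, m, a2, a3, a4, a5⟩ := r2 n K hK x hx l hl
        exact ⟨y, a1, m, a2, a3, a4, fun z ⟨K', b1, b2⟩ => a5 z (r1 _ _ _ b1 hK ▸ b2)⟩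
      · exact ⟨x, hx, l, hl, fun _ _ => Iff.rfl, sub_rfl, fun z ⟨K, b, _⟩ => absurd ⟨K, b⟩ h⟩
    obtain ⟨x, hx, h⟩ := baire (fun n z => ((∃ K, op n K ∈ R ∧ z \ (∅ : M) ∪ (∅ : M) \ z ∈ K) ∨
        ∃ K, op n K ∈ R ∧ z \ E ∪ E \ z ∈ K) ∨
        (∃ K, op n K ∈ R ∧ z \ (om M \ E) ∪ (om M \ E) \ z ∈ K) ∨
        ∃ K, op n K ∈ R ∧ z \ om M ∪ om M \ z ∈ K) fun n _ =>
      (((key n).flip (emp_sub _)).or ((key n).flip hE)).or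
        (((key n).flip (ds _ _)).or ((key n).flip sub_rfl))
    have fl : ∀ τ, τ ⊆ om M → u ∅ (x \ τ ∪ τ \ x) → u (sc ∅) (x \ τ ∪ τ \ x) →
        ∃ n ∈ om M, ∃ K, op n K ∈ R ∧ x \ τ ∪ τ \ x ∈ K := fun τ hτ a b => by
      obtain ⟨n, K, c1, c2⟩ := r3 _ ((hF _).2 ⟨fun k hk => (m_union.1 hk).elim
        (fun h => hx k (ds _ _ k h)) fun h => hτ k (ds _ _ k h), a, b⟩)
      exact ⟨n, c1, K, c2⟩
    have sb : ∀ {a X Y T : M}, u a (X ∩ Y) → (∀ k, k ∈ X → k ∈ Y → k ∈ T) → u a T :=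
      fun h e => up' _ _ _ h fun k hk => e k (m_inter.1 hk).1 (m_inter.1 hk).2
    obtain ⟨a | a, b | b⟩ := ul x hx
    · obtain ⟨n, hn, e⟩ := fl ∅ (emp_sub _) (up' _ _ _ a fun k => by simp)
        (up' _ _ _ b fun k => by simp)
      exact h n hn (.inl (.inl e))
    · obtain ⟨n, hn, e⟩ := fl _ (ds _ E) (sb (mt _ w.2.1 _ _ a uE) fun k => by
        simp only [m_union, m_diff]; tauto) (sb (mt _ w.2.2.1 _ _ b vE) fun k => by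
        simp only [m_union, m_diff]; tauto)
      exact h n hn (.inr (.inl e))
    · obtain ⟨n, hn, e⟩ := fl _ hE (sb (mt _ w.2.1 _ _ a uE) fun k => by
        simp only [m_union, m_diff]; tauto) (sb (mt _ w.2.2.1 _ _ b vE) fun k => by
        simp only [m_union, m_diff]; tauto)
      exact h n hn (.inl (.inr e))
    · obtain ⟨n, hn, e⟩ := fl _ sub_rfl (up' _ _ _ a fun k hk => m_union.2 (.inr hk))
        (up' _ _ _ b fun k hk => m_union.2 (.inr hk))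
      exact h n hn (.inr (.inr e))
  · refine (hG x).trans (and_congr_right fun hx => ⟨fun h y hy => h.elim
      (fun h => n0 _ _ h ((hF y).1 hy).2.1) fun h => n1 _ _ h ((hF y).1 hy).2.2, fun h => ?_⟩)
    by_contra hn
    obtain ⟨k, a, b⟩ := h _ ((hF _).2 ⟨ds _ x, (ul x hx).1.resolve_left fun e => hn (.inl e),
      (ul x hx).2.resolve_left fun e => hn (.inr e)⟩)
    exact (m_diff.1 b).2 a
  · rintro ⟨h, h1, h2, h3, -, h5⟩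
    obtain ⟨c, c0, c1, c2⟩ := hc G h (fun x hx => ((hG x).1 hx).1) (fun x y z e => by
      obtain ⟨x', a, y', b, z', c, e'⟩ := h1 _ e
      simp only [op_eq] at e'
      obtain ⟨rfl, rfl, rfl⟩ := e'
      exact ⟨a, b, c⟩) h2 h3 h5
    have tp : ∀ S, S ⊆ om M → ((S ∩ E ∈ G ∧ S \ E ∈ G) ↔ u ∅ S ∧ u (sc ∅) S) := fun S hS => by
      refine ⟨fun ⟨a, b⟩ => ⟨?_, ?_⟩, fun ⟨a, b⟩ => ⟨(hG _).2 ⟨fun k hk => hS k (m_inter.1 hk).1,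
        .inl (mt _ w.2.1 _ _ a uE)⟩, (hG _).2 ⟨sub_trans (ds _ _) hS, .inr (up' _ _ _
          (mt _ w.2.2.1 _ _ b vE) fun k => by simp only [m_inter, m_diff]; tauto)⟩⟩⟩
      · refine ((hG _).1 a).2.elim (fun e => up' _ _ _ e fun k hk => (m_inter.1 hk).1) fun e => ?_
        obtain ⟨k, d1, d2⟩ := n1 _ _ e vE
        exact absurd (m_inter.1 d1).2 (m_diff.1 d2).2
      · refine ((hG _).1 b).2.elim (fun e => ?_) fun e => up' _ _ _ e (ds _ _)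
        obtain ⟨k, d1, d2⟩ := n0 _ _ e uE
        exact absurd d2 (m_diff.1 d1).2
    obtain ⟨t, t1, s, s1, ⟨S, hS, hk⟩, -⟩ := hW c c0 ∅ e0
    have x0 : ∀ X, (∀ n ∈ t, n ∉ X) → ¬ u ∅ X := fun X h e => by
      obtain ⟨k, a, b⟩ := n0 _ _ ⟨t, t1, sub_rfl⟩ e
      exact h k a b
    have x1 : ∀ X, (∀ n ∈ s, n ∉ X) → ¬ u (sc ∅) X := fun X h e => by
      obtain ⟨k, a, b⟩ := n1 _ _ ⟨s, s1, sub_rfl⟩ e
      exact h k a b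
    rcases hk with ⟨a, b, d⟩ | ⟨C, ⟨hC, hC'⟩, hk⟩
    · obtain ⟨e1, e2⟩ := (tp S hS).2 ⟨⟨t, t1, b⟩, s, s1, d⟩
      exact (c1 _ e1 _ e2).elim a
    · have e := (tp S hS).symm.trans ((c2 _ _ _ hC (fun k hk => hS k (m_inter.1 hk).1)
        (sub_trans (ds _ _) hS) hC').trans (hG C))
      rcases hk with ⟨a, b⟩ | ⟨a, b⟩ | ⟨a, b, d, d'⟩
      · exact x0 S a (e.2 ⟨hC, .inr ⟨s, s1, b⟩⟩).1
      · exact x1 S a (e.2 ⟨hC, .inl ⟨t, t1, b⟩⟩).2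
      · exact (e.1 ⟨⟨t, t1, a⟩, s, s1, b⟩).2.elim (x0 C d) (x1 C d')

theorem ev_coidSq (v : ℕ → M) : Ev Mod.E (coidSq 0) v := by
  simp only [coidSq, homeo, tri, coid, mgr, nwd, filt, agr, real, nat, ind, emp, suc, app,
    opr, upr, res, sub, allIn, exIn, ev_all, ev_ex, ev_imp, ev_neg, ev_and, ev_mem, ev_iff, ev_or,
    ev_eq, Nat.reduceAdd, Nat.reduceSub, cons_zero, cons_succ, E_def, s_emp, s_suc, s_op, s_up,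
    s_res, exists_eq_right, exists_eq_left, s_om, s_sub]
  exact coidSq_mod (M := M)

theorem prf_coidSq : Prf [] (coidSq 0) :=
  complete fun M E h v => @ev_coidSq M ⟨E, v, h⟩ v

end Pool.Agent.Lib.MP_60e7f9_lc.Prov
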